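import Pool.Agent.GLB.Defs
import Pool.Agent.PTH.Hom
import Pool.Agent.RSG.ExM

/-!
# STR/Defs: the path of a Cappell-Shaneson sphere

`stw v m m' g₀ g₁ g₃ D ρ = g₀ v + (1 - g₁) (1/2, 0, 0) + (g₁ - g₃) (m + x e₁ + y m) + g₃ (m - m' + (0, 1/2, 0))`, `D = x + i y`:
first straight from the foot `(1/2, 0, 0)` to the point `m + D(ρ₁)` near the lattice line `m + R v`, then turns around it (`m + D(ρ)`, `ρ₁ ≤ ρ ≤ ρ₂`), then straight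
from `m + D(ρ₂)` to the foot `m - m' + (0, 1/2, 0)`.  In the planar coordinates with `(p, q) = (m₂, m₃)` it is the path `pst`.
-/

open scoped Manifold ContDiff
open Complex (I)

namespace Pool.Agent.STR

open Pool.Agent.PTH
open Pool.Agent.GLB

/-- `g₁`: the first straight piece, `g₃`: the last one -/
structure Steps (ρ₁ ρ₂ : ℝ) (g₁ g₃ : ℝ → ℝ) : Prop where
  lo : 0 < ρ₁
  lt : ρ₁ < ρ₂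
  lo' : ρ₁ < 3 / 4
  hi : ρ₂ < 1
  sm₁ : ContDiff ℝ ∞ g₁
  sm₃ : ContDiff ℝ ∞ g₃
  mono₁ : Monotone g₁
  mono₃ : Monotone g₃
  start : ∃ ε : ℝ, 0 < ε ∧ ∀ ρ ≤ ε, g₁ ρ = 0
  one : ∀ ρ, ρ₁ ≤ ρ → g₁ ρ = 1
  zero : ∀ ρ ≤ ρ₂, g₃ ρ = 0
  stop : ∃ ε : ℝ, 0 < ε ∧ ∀ ρ, 1 - ε ≤ ρ → g₃ ρ = 1

/-- a curve in `ℂ - 0`, constant off `[ρ₁, ρ₂]` -/
structure Crv (ρ₁ ρ₂ : ℝ) (D : ℝ → ℂ) : Prop where
  smooth : ContDiff ℝ ∞ D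
  ne : ∀ ρ, D ρ ≠ 0
  lo : ∀ ρ ≤ ρ₁, D ρ = D ρ₁
  hi : ∀ ρ, ρ₂ ≤ ρ → D ρ = D ρ₂

/-- The path. -/
noncomputable def stw (v m m' : ℤ × ℤ × ℤ) (g₀ g₁ g₃ : ℝ → ℝ) (D : ℝ → ℂ) (ρ : ℝ) : ℝ × ℝ × ℝ :=
  g₀ ρ • rv v + (1 - g₁ ρ) • ((1 / 2, 0, 0) : ℝ × ℝ × ℝ) +
    (g₁ ρ - g₃ ρ) • (rv m + ((D ρ).re, 0, 0) + (D ρ).im • rv m) +
    g₃ ρ • (rv m - rv m' + (0, 1 / 2, 0))

/-- The hypotheses on `v, m, m', D`: `(e₁, m, v)` and `(e₂, m', v)` are bases of `Z³`, of determinants `±ε`; the curve `D` is small, starts in the half plane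
`y < 0` and ends in the half plane `ε h₂ > 0`. -/
structure Star (v m m' : ℤ × ℤ × ℤ) (ε : ℤ) (ρ₁ ρ₂ : ℝ) (D : ℝ → ℂ) : Prop where
  sign : ε = 1 ∨ ε = -1
  h1 : hz1 v m = ε
  h2 : hz2 v m' = -ε
  crv : Crv ρ₁ ρ₂ D
  small : ∀ ρ, ‖D ρ‖ * (((|m.1| : ℤ) + 2) * ((|v.2.2| : ℤ) + (|v.1 * m.2.2| : ℤ) + 1)) < 1
  inn : (D ρ₁).im < 0
  out : 0 < ε * (v.2.2 * (D ρ₂).re + hz2 v m * (D ρ₂).im)

/-! ## planar version -/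

/-- the obstacle is `(k + 1/2, 1)` -/
noncomputable def pst (k : ℤ) (s₁ : ℝ × ℝ) (g₁ g₃ : ℝ → ℝ) (D : ℝ → ℂ) (ρ : ℝ) : ℝ × ℝ :=
  (g₁ ρ - g₃ ρ) • (((k : ℝ) + 1 / 2 + (D ρ).re, 1 + (D ρ).im) : ℝ × ℝ) + g₃ ρ • s₁

/-- The linear form `f = d X + e Y` (second height).  The end point `s₁` is not an obstacle and `f (s₁ - O) = 1`. -/
structure PData (k d e : ℤ) (s₁ : ℝ × ℝ) : Prop where
  d0 : d ≠ 0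
  f1 : d * (s₁.1 - k - 1 / 2) + e * (s₁.2 - 1) = 1
  obs : ¬ Obs s₁

structure PCrv (ρ₁ ρ₂ : ℝ) (d e : ℤ) (D : ℝ → ℂ) : Prop where
  crv : Crv ρ₁ ρ₂ D
  small : ∀ ρ, ‖D ρ‖ * ((|d| : ℤ) + (|e| : ℤ) + 1) < 1
  inn : (D ρ₁).im < 0
  out : 0 < d * (D ρ₂).re + e * (D ρ₂).im

end Pool.Agent.STR
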