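import Pool.Agent.STR.SMn
import Pool.Agent.GLB.Sgn

/-!
# STR/SSg: reflection, both signs   (difficulty 2)

`e = (true, true, false)` (GLB/Sgn): `smz e (a, b, d) = (a, b, -d)`.  `stw (smz e v) (smz e m) (smz e m') g₀ g₁ g₃ D ρ = smr e (stw v m m' g₀ g₁ g₃ D ρ)` (linear; the feet `(1/2,0,0)`, `(0,1/2,0)` are fixed),
`hz1 (smz e v) (smz e m) = - hz1 v m`, the same for `hz2`; `Star v m m' ε ρ₁ ρ₂ D` implies `Star (smz e v) (smz e m) (smz e m') (-ε) ρ₁ ρ₂ D` (absolute values of `-v₃`, `v₁ (-m₃)`: the same), `VGood` is preserved,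
`ne (smz e v) (smz e m) (smz e m') j = smz e (ne v m m' j)`.
`star_gpath`: `ε = 1`: `stw_gpath`; `ε = -1`: `stw_gpath` for the reflected data, then `sg_gpath` (GLB/Sgn) back (`smr e (smr e x) = x`; for this `e` the feet numbers are `sg0 e n₀ = (n₀.1, n₀.2.1, -n₀.2.2)`, `sg1 e n₁ = smz e n₁`).
`star_mono`: `ε = -1`: `star_pos` for the reflected data: `n₁`, `w`; take `smz e n₁`, `smr e ∘ w` (`sg_gpath`); `Mono4`: `ht1`, `ht2` change the sign (`ht1_sg`, `ht2_sg`; see the proof of `gcar_all` in GLB/Fin for the same argument);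
`GEq`: `Fin_sg` (GLB/Fin) (`smr e ∘ smr e ∘ w = w`).
-/

open scoped Manifold ContDiff Topology
open Set Filter
open Complex (I)

namespace Pool.Agent.STR

open Pool.Agent.PTH
open Pool.Agent.GLB

universe u

variable {ρ₁ ρ₂ : ℝ} {g₀ g₁ g₃ : ℝ → ℝ} {D : ℝ → ℂ} {ε : ℤ} {v m m' : ℤ × ℤ × ℤ} {j : ℤ}

theorem SSg_geq (e : Sg3) {w w' : ℝ → ℝ × ℝ × ℝ}
    (h : GEq.{u} (smz e v) (fun ρ => smr e (w ρ)) (fun ρ => smr e (w' ρ))) : GEq.{u} v w w' :=
  fun n X _ _ _ => (gcar_sg e w).trans ((h n X).trans (gcar_sg e w').symm)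

theorem SSg_smz (m : ℤ × ℤ × ℤ) : smz (true, true, false) m = (m.1, m.2.1, -m.2.2) := by
  simp [smz, sz]

theorem SSg_smr (x : ℝ × ℝ × ℝ) : smr (true, true, false) x = (x.1, x.2.1, -x.2.2) := by
  simp [smr, sr]

theorem SSg_stw (v m m' : ℤ × ℤ × ℤ) (g₀ g₁ g₃ : ℝ → ℝ) (D : ℝ → ℂ) (ρ : ℝ) :
    stw (smz (true, true, false) v) (smz (true, true, false) m) (smz (true, true, false) m') g₀ g₁ g₃ D ρ =
      smr (true, true, false) (stw v m m' g₀ g₁ g₃ D ρ) := by
  rw [SSg_smz, SSg_smz, SSg_smz, SSg_smr]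
  unfold stw rv
  refine Prod.ext ?_ (Prod.ext ?_ ?_)
  · simp
  · simp
  · simp
    ring

theorem SSg_ne (v m m' : ℤ × ℤ × ℤ) (j : ℤ) :
    sg1 (true, true, false) (ne (smz (true, true, false) v) (smz (true, true, false) m)
      (smz (true, true, false) m') j) = ne v m m' j := by
  rw [SSg_smz, SSg_smz, SSg_smz]
  unfold ne sg1 sz sf
  refine Prod.ext ?_ (Prod.ext ?_ ?_)
  · simp
  · simp
  · simp
    ring

theorem SSg_zero : sg0 (true, true, false) (0 : ℤ × ℤ × ℤ) = 0 := by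
  simp [sg0, sz, sf]

theorem SSg_star (h : Star v m m' (-1) ρ₁ ρ₂ D) :
    Star (smz (true, true, false) v) (smz (true, true, false) m) (smz (true, true, false) m') 1 ρ₁ ρ₂ D := by
  rw [SSg_smz, SSg_smz, SSg_smz]
  have h1 := h.h1
  have h2 := h.h2
  have h3 := h.out
  refine ⟨Or.inl rfl, ?_, ?_, h.crv, ?_, h.inn, ?_⟩
  · unfold hz1 at h1 ⊢
    show -v.2.2 * m.2.1 - v.2.1 * (-m.2.2) = 1
    linear_combination -h1
  · unfold hz2 at h2 ⊢
    show -v.2.2 * m'.1 - v.1 * (-m'.2.2) = -1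
    linear_combination -h2
  · intro ρ
    have h4 := h.small ρ
    show ‖D ρ‖ * (((|m.1| : ℤ) + 2) * ((|-v.2.2| : ℤ) + (|v.1 * (-m.2.2)| : ℤ) + 1)) < 1
    rw [mul_neg, abs_neg, abs_neg]
    exact h4
  · unfold hz2 at h3 ⊢
    push_cast at h3 ⊢
    have e1 : (1 : ℝ) * (-(v.2.2 : ℝ) * (D ρ₂).re + (-(v.2.2 : ℝ) * m.1 - v.1 * (-(m.2.2 : ℝ))) * (D ρ₂).im) =
      -1 * (v.2.2 * (D ρ₂).re + (v.2.2 * m.1 - v.1 * m.2.2) * (D ρ₂).im) := by ring
    rw [e1]
    exact h3

theorem star_gpath (hv : VGood v) (hst : Steps ρ₁ ρ₂ g₁ g₃) (h : Star v m m' ε ρ₁ ρ₂ D) (hg : ContDiff ℝ ∞ g₀)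
    (hg0 : ∃ ε : ℝ, 0 < ε ∧ ∀ ρ ≤ ε, g₀ ρ = 0) (hg1 : ∃ ε : ℝ, 0 < ε ∧ ∀ ρ, 1 - ε ≤ ρ → g₀ ρ = j) :
    GPath v 0 (ne v m m' j) (stw v m m' g₀ g₁ g₃ D) := by
  rcases h.sign with e1 | e1
  · rw [e1] at h
    exact stw_gpath hv hst h hg hg0 hg1
  · rw [e1] at h
    have hG := sg_gpath (true, true, false)
      (stw_gpath (smz_good (true, true, false) hv) hst (SSg_star h) hg hg0 hg1)
    rw [smz_smz, SSg_zero, SSg_ne] at hG
    have e2 : (fun ρ => smr (true, true, false) (stw (smz (true, true, false) v) (smz (true, true, false) m)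
        (smz (true, true, false) m') g₀ g₁ g₃ D ρ)) = stw v m m' g₀ g₁ g₃ D := by
      funext ρ
      rw [SSg_stw, smr_smr]
    rw [e2] at hG
    exact hG

theorem star_mono (hΓ : CSW.WIn Gam.{u}) (hv : VGood v) (hst : Steps ρ₁ ρ₂ g₁ g₃)
    (h : Star v m m' ε ρ₁ ρ₂ D) (hg : ContDiff ℝ ∞ g₀) (hg0 : ∃ ε : ℝ, 0 < ε ∧ ∀ ρ ≤ ε, g₀ ρ = 0)
    (hg1 : ∃ ε : ℝ, 0 < ε ∧ ∀ ρ, 1 - ε ≤ ρ → g₀ ρ = j) :
    ∃ (n₁ : ℤ × ℤ × ℤ) (w : ℝ → ℝ × ℝ × ℝ), GPath v 0 n₁ w ∧ Mono4 v w ∧ n₁.2.2 = (ne v m m' j).2.2 ∧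
      GEq.{u} v (stw v m m' g₀ g₁ g₃ D) w := by
  rcases h.sign with e1 | e1
  · rw [e1] at h
    exact star_pos hΓ hv hst h hg hg0 hg1
  · rw [e1] at h
    obtain ⟨n₁, w, hw, hm, hn, hE⟩ := star_pos.{u} hΓ (smz_good (true, true, false) hv) hst (SSg_star h)
      hg hg0 hg1
    have hG := sg_gpath (true, true, false) hw
    rw [smz_smz, SSg_zero] at hG
    refine ⟨sg1 (true, true, false) n₁, fun ρ => smr (true, true, false) (w ρ), hG, ?_, ?_, ?_⟩
    · have k1 : ∀ x, ht1 v (smr (true, true, false) x) = - ht1 (smz (true, true, false) v) x := by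
        intro x
        have := ht1_sg (true, true, false) (smz (true, true, false) v) x
        rw [smz_smz] at this
        rw [this]
        simp [sr]
      have k2 : ∀ x, ht2 v (smr (true, true, false) x) = - ht2 (smz (true, true, false) v) x := by
        intro x
        have := ht2_sg (true, true, false) (smz (true, true, false) v) x
        rw [smz_smz] at this
        rw [this]
        simp [sr]
      rcases hm with h | h | h | h
      · right; left
        intro x y hxy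
        show ht1 v (smr (true, true, false) (w y)) ≤ ht1 v (smr (true, true, false) (w x))
        rw [k1, k1]
        exact neg_le_neg (h hxy)
      · left
        intro x y hxy
        show ht1 v (smr (true, true, false) (w x)) ≤ ht1 v (smr (true, true, false) (w y))
        rw [k1, k1]
        exact neg_le_neg (h hxy)
      · right; right; right
        intro x y hxy
        show ht2 v (smr (true, true, false) (w y)) ≤ ht2 v (smr (true, true, false) (w x))
        rw [k2, k2]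
        exact neg_le_neg (h hxy)
      · right; right; left
        intro x y hxy
        show ht2 v (smr (true, true, false) (w x)) ≤ ht2 v (smr (true, true, false) (w y))
        rw [k2, k2]
        exact neg_le_neg (h hxy)
    · rw [← SSg_ne v m m' j]
      show sz false n₁.2.2 = sz false _
      rw [hn]
    · refine SSg_geq (true, true, false) ?_
      have e2 : (fun ρ => smr (true, true, false) (stw v m m' g₀ g₁ g₃ D ρ)) =
          stw (smz (true, true, false) v) (smz (true, true, false) m) (smz (true, true, false) m') g₀ g₁ g₃ D := by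
        funext ρ
        rw [SSg_stw]
      have e3 : (fun ρ => smr (true, true, false) (smr (true, true, false) (w ρ))) = w := by
        funext ρ
        rw [smr_smr]
      rw [e2, e3]
      exact hE

end Pool.Agent.STR
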