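import Pool.Agent.STR.Defs

/-!
# STR/Plr: smooth polar coordinates of a curve in `ℂ - 0`   (difficulty 2)

`exists_polar`: `A ρ = log (D 0) + ∫_0^ρ D' / D` is smooth, the derivative of `D exp (-A)` is `0`, so `D = exp A`; `θ = im A / (2π)`, `‖D‖ = exp (re A)`.  (Smoothness of the integral: `intervalIntegral` with smooth integrand; its
derivative is `D'/D`, `contDiff_infty_iff_deriv` or similar; see also COR/Lga.lean (`exists_log_loop`, finished, in the store cor_Lga.lean) where the same is done.)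
`polar_inn`: if `im (D ρ₁) < 0` then `sin (2π θ ρ₁) < 0`: subtract an integer from `θ` such that `θ ρ₁ ∈ (-1/2, 0)`.
`polar_out`: `(d, e) = R (cos 2πφ, sin 2πφ)`, `R > 0`: `d x + e y = R ‖D‖ cos (2π (θ - φ)) > 0`: there is an integer `N` with `|θ - φ - N| < 1/4` (`N = round (θ - φ)`; if `|θ - φ - N| ≥ 1/4` (and `≤ 1/2`) the cosine is `≤ 0`).
-/

open scoped Manifold ContDiff Topology
open Set Filter
open Complex (I)

namespace Pool.Agent.STR

open Pool.Agent.RSG (ex)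

/-- a smooth logarithm of a smooth nonvanishing function -/
theorem Plr_log {α : ℝ → ℂ} (hα : ContDiff ℝ ∞ α) (hne : ∀ l, α l ≠ 0) :
    ∃ A₀ : ℝ → ℂ, ContDiff ℝ ∞ A₀ ∧ (∀ l, Complex.exp (A₀ l) = α l) ∧
      ∀ l, HasDerivAt A₀ (deriv α l / α l) l := by
  have hd : ContDiff ℝ ∞ (deriv α) := by
    have := (contDiff_infty_iff_deriv.1 hα).2
    exact this
  have hq : ContDiff ℝ ∞ fun l => deriv α l / α l := by
    have h3 : ContDiff ℝ ∞ fun l => deriv α l * (α l)⁻¹ := hd.mul (hα.inv hne)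
    have e : (fun l => deriv α l / α l) = fun l => deriv α l * (α l)⁻¹ := funext fun l => div_eq_mul_inv _ _
    rw [e]
    exact h3
  have hqc := hq.continuous
  have hder : ∀ l, HasDerivAt (fun l => Complex.log (α 0) + ∫ s in (0 : ℝ)..l, deriv α s / α s)
      (deriv α l / α l) l := by
    intro l
    have := intervalIntegral.integral_hasDerivAt_right (hqc.intervalIntegrable 0 l)
      (hqc.stronglyMeasurableAtFilter _ _) hqc.continuousAt
    exact this.const_add _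
  refine ⟨fun l => Complex.log (α 0) + ∫ s in (0 : ℝ)..l, deriv α s / α s, ?_, ?_, hder⟩
  · rw [contDiff_infty_iff_deriv]
    refine ⟨fun l => (hder l).differentiableAt, ?_⟩
    have e : deriv (fun l => Complex.log (α 0) + ∫ s in (0 : ℝ)..l, deriv α s / α s) =
        fun l => deriv α l / α l := funext fun l => (hder l).deriv
    rw [e]
    exact hq
  · intro l
    have hαd : ∀ x, HasDerivAt α (deriv α x) x := fun x =>
      ((hα.differentiable (by simp)) x).hasDerivAt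
    have hE : ∀ x, HasDerivAt (fun x => α x * Complex.exp (-(Complex.log (α 0) +
        ∫ s in (0 : ℝ)..x, deriv α s / α s))) 0 x := by
      intro x
      have h1 := ((hder x).neg.cexp)
      have h2 := (hαd x).mul h1
      refine h2.congr_deriv ?_
      have := hne x
      simp only [Pi.neg_apply]
      field_simp
      ring
    have hconst := is_const_of_deriv_eq_zero (f := fun x => α x * Complex.exp (-(Complex.log (α 0) +
        ∫ s in (0 : ℝ)..x, deriv α s / α s))) (fun x => (hE x).differentiableAt) (fun x => (hE x).deriv) l 0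
    simp only [intervalIntegral.integral_same, add_zero, Complex.exp_neg, Complex.exp_log (hne 0),
      mul_inv_cancel₀ (hne 0)] at hconst
    have h3 := Complex.exp_ne_zero (Complex.log (α 0) + ∫ s in (0 : ℝ)..l, deriv α s / α s)
    rw [← div_eq_mul_inv, div_eq_one_iff_eq h3] at hconst
    exact hconst.symm

theorem exists_polar {D : ℝ → ℂ} (hD : ContDiff ℝ ∞ D) (h0 : ∀ ρ, D ρ ≠ 0) :
    ∃ θ : ℝ → ℝ, ContDiff ℝ ∞ θ ∧ ∀ ρ, D ρ = ‖D ρ‖ * ex (θ ρ) := by
  obtain ⟨A, hA, hAe, -⟩ := Plr_log hD h0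
  refine ⟨fun ρ => (A ρ).im / (2 * Real.pi), ?_, ?_⟩
  · exact (Complex.imCLM.contDiff.comp hA).div_const _
  · intro ρ
    have h1 : ‖D ρ‖ = Real.exp (A ρ).re := by rw [← hAe, Complex.norm_exp]
    have hpi : (Real.pi : ℝ) ≠ 0 := Real.pi_ne_zero
    have h2 : ex ((A ρ).im / (2 * Real.pi)) = Complex.exp ((A ρ).im * I) := by
      unfold ex
      rw [show 2 * Real.pi * ((A ρ).im / (2 * Real.pi)) = (A ρ).im by field_simp]
    rw [h1, h2, Complex.ofReal_exp, ← Complex.exp_add, Complex.re_add_im, hAe]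

theorem Plr_re (r θ : ℝ) : ((r : ℂ) * ex θ).re = r * Real.cos (2 * Real.pi * θ) := by
  rw [Complex.re_ofReal_mul, Pool.Agent.RSG.ex_re]

theorem Plr_im (r θ : ℝ) : ((r : ℂ) * ex θ).im = r * Real.sin (2 * Real.pi * θ) := by
  rw [Complex.im_ofReal_mul, Pool.Agent.RSG.ex_im]

theorem Plr_lin {d e R φ : ℝ} (h1 : d = R * Real.cos (2 * Real.pi * φ))
    (h2 : e = R * Real.sin (2 * Real.pi * φ)) (r θ : ℝ) (N : ℤ) :
    d * ((r : ℂ) * ex θ).re + e * ((r : ℂ) * ex θ).im =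
      R * r * Real.cos (2 * Real.pi * (θ - φ - N)) := by
  rw [Plr_re, Plr_im, h1, h2]
  have h3 : 2 * Real.pi * (θ - φ - N) = 2 * Real.pi * θ - 2 * Real.pi * φ - N * (2 * Real.pi) := by ring
  rw [h3, Real.cos_sub_int_mul_two_pi, Real.cos_sub]
  ring

theorem polar_inn {D : ℝ → ℂ} (hD : ContDiff ℝ ∞ D) (h0 : ∀ ρ, D ρ ≠ 0) {ρ₁ : ℝ} (h : (D ρ₁).im < 0) :
    ∃ θ : ℝ → ℝ, ContDiff ℝ ∞ θ ∧ (∀ ρ, D ρ = ‖D ρ‖ * ex (θ ρ)) ∧ -(1 / 2) < θ ρ₁ ∧ θ ρ₁ < 0 := by
  obtain ⟨θ, hθ, hθe⟩ := exists_polar hD h0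
  have hpi := Real.pi_pos
  have hn : 0 < ‖D ρ₁‖ := norm_pos_iff.2 (h0 ρ₁)
  have hs : Real.sin (2 * Real.pi * θ ρ₁) < 0 := by
    rw [hθe ρ₁, Plr_im] at h
    by_contra hc
    rw [not_lt] at hc
    have := mul_nonneg hn.le hc
    linarith
  set m := ⌈θ ρ₁⌉ with hm
  have h1 : θ ρ₁ ≤ m := Int.le_ceil _
  have h2 : (m : ℝ) < θ ρ₁ + 1 := Int.ceil_lt_add_one _
  have hs' : Real.sin (2 * Real.pi * (θ ρ₁ - m)) < 0 := by
    rw [show 2 * Real.pi * (θ ρ₁ - m) = 2 * Real.pi * θ ρ₁ - m * (2 * Real.pi) by ring,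
      Real.sin_sub_int_mul_two_pi]
    exact hs
  refine ⟨fun ρ => θ ρ - m, hθ.sub contDiff_const, ?_, ?_, ?_⟩
  · intro ρ
    have h3 : ex (θ ρ - m) = ex (θ ρ) := by
      have := Pool.Agent.RSG.ex_add_int (θ ρ) (-m)
      push_cast at this
      rw [← sub_eq_add_neg] at this
      exact this
    show D ρ = ‖D ρ‖ * ex (θ ρ - m)
    rw [h3]
    exact hθe ρ
  · show -(1 / 2) < θ ρ₁ - m
    by_contra hc
    rw [not_lt] at hc
    have h4 : 0 ≤ Real.sin (2 * Real.pi * (θ ρ₁ - m) + 2 * Real.pi) := by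
      apply Real.sin_nonneg_of_nonneg_of_le_pi
      · nlinarith
      · nlinarith
    rw [Real.sin_add_two_pi] at h4
    linarith
  · show θ ρ₁ - m < 0
    rcases lt_or_eq_of_le h1 with h | h
    · linarith
    · exfalso
      rw [← h, sub_self, mul_zero, Real.sin_zero] at hs'
      exact lt_irrefl _ hs'

theorem polar_out {d e R φ : ℝ} (hR : 0 < R) (h1 : d = R * Real.cos (2 * Real.pi * φ))
    (h2 : e = R * Real.sin (2 * Real.pi * φ)) {z : ℂ} {θ : ℝ} (hz : z = ‖z‖ * ex θ) (h : 0 < d * z.re + e * z.im) :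
    ∃ N : ℤ, |θ - φ - N| < 1 / 4 := by
  have hpi := Real.pi_pos
  refine ⟨round (θ - φ), ?_⟩
  have h3 : |θ - φ - round (θ - φ)| ≤ 1 / 2 := abs_sub_round _
  rw [hz, Plr_lin h1 h2 _ _ (round (θ - φ))] at h
  by_contra hc
  rw [not_lt] at hc
  have h4 : Real.cos (2 * Real.pi * (θ - φ - round (θ - φ))) ≤ 0 := by
    rw [← Real.cos_abs, abs_mul, abs_of_pos (by positivity : (0 : ℝ) < 2 * Real.pi)]
    apply Real.cos_nonpos_of_pi_div_two_le_of_le
    · nlinarith
    · nlinarith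
  have h5 : R * ‖z‖ * Real.cos (2 * Real.pi * (θ - φ - round (θ - φ))) ≤ 0 :=
    mul_nonpos_of_nonneg_of_nonpos (mul_nonneg hR.le (norm_nonneg z)) h4
  linarith

/-- converse -/
theorem polar_pos {d e R φ : ℝ} (hR : 0 < R) (h1 : d = R * Real.cos (2 * Real.pi * φ))
    (h2 : e = R * Real.sin (2 * Real.pi * φ)) {r θ : ℝ} (hr : 0 < r) {N : ℤ} (h : |θ - φ - N| < 1 / 4) :
    0 < d * (r * ex θ).re + e * (r * ex θ).im := by
  have hpi := Real.pi_pos
  rw [Plr_lin h1 h2 r θ N]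
  rw [abs_lt] at h
  have h3 : 0 < Real.cos (2 * Real.pi * (θ - φ - N)) := by
    apply Real.cos_pos_of_mem_Ioo
    constructor
    · nlinarith [h.1]
    · nlinarith [h.2]
  positivity

end Pool.Agent.STR
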