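import Pool.Agent.STR.PSt
import Pool.Agent.STR.Plr
import Pool.Agent.GLB.FgC

/-!
# STR/Cls: the class of the curve around the obstacle   (difficulty 3)

`s₁ = pl (fin n₁)`.  Symbols of `Plr`: `f = d X + e Y = R ‖.‖ cos (2π (θ - φ))`.
(A) `cls0` (the same integer `N`): homotopy `H l = pst k s₁ g₁ g₃ (D_l)`, `D_l = r_l ex (θ_l)`, `r_l = (1 - l) ‖D‖ + l ‖D'‖`, `θ_l = (1 - l) θ + l θ'`, `0 ≤ l ≤ 1`.  `D_l` satisfies (pointwise in `ρ`): `0 < r_l`,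
  `r_l (|d| + |e| + 1) < 1`, constant off `[ρ₁, ρ₂]`?  careful: `θ` is constant for `ρ ≤ ρ₁` and for `ρ ≥ ρ₂` because `D` is (`ex (θ ρ)` is constant, `θ` continuous, so `θ ρ - θ ρ₁` is a continuous integer valued function on `ρ ≤ ρ₁`).
  `θ_l ρ₁ ∈ (-1/2, 0)`: `im D_l (ρ₁) < 0`; `|θ_l ρ₂ - φ - N| < 1/4`: `f (D_l ρ₂) > 0` (`polar_pos`).  `D_l` is smooth in `ρ` (`‖D‖` is smooth where `D ≠ 0`), so `PCrv ρ₁ ρ₂ d e D_l` and `pst_spath` give all `CPath`s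
  (the `ε`: for `ρ ≤ ε`, `g₁ = g₃ = 0`; for `ρ ≥ 1 - ε`, `g₁ = g₃ = 1`: independent of `l`).  Joint continuity of `H`.  `H 0 = pst .. D`, `H 1 = pst .. D'`.  `GLB.hom_gcar`.
(B) `cls` (`N' = N + 2 i`): `θ₂ = θ + 2 i σ`, `σ ρ = smoothTransition ((ρ - ρ₁) / (ρ₂ - ρ₁))`, `D₂ = ‖D‖ ex θ₂`: `PCrv` (it is `D` at `ρ ≤ ρ₁` and, `ex` of an integer, at `ρ ≥ ρ₂`).  `GLB.turn_even` (FgC) from `D` to `D₂`: the paths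
  `pst .. D`, `pst .. D₂` are `Turn (pl (fin n₁)) k 1 ρ₁ ρ₂ ‖D‖ θ` resp. `θ₂` (for `ρ ∈ [ρ₁, ρ₂]`: `g₁ = 1`, `g₃ = 0`, `pst = O + D = pol O ‖D‖ θ`), equal off `(ρ₁, ρ₂)`.  Then (A) for `D₂` and `D'`, with the integer
  `N + 2 i = N'`.
-/

open scoped Manifold ContDiff Topology
open Set Filter
open Complex (I)

namespace Pool.Agent.STR

open Pool.Agent.PTH
open Pool.Agent.GLB
open Pool.Agent.RSG (ex)

universe u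

variable {ρ₁ ρ₂ : ℝ} {g₁ g₃ : ℝ → ℝ} {D D' : ℝ → ℂ} {k d e : ℤ} {v : ℤ × ℤ × ℤ} {p q : ℤ} {n₁ : ℤ × ℤ × ℤ}

theorem Cls_const {θ : ℝ → ℝ} (hθ : Continuous θ) {a b : ℝ} (h : ∀ x ∈ uIcc a b, ex (θ x) = ex (θ a)) :
    θ b = θ a := by
  by_contra hne
  have hIVT := intermediate_value_uIcc (hθ.continuousOn (s := uIcc a b))
  obtain ⟨m, hm⟩ := Pool.Agent.RSG.ex_eq_iff.1 (h b right_mem_uIcc)
  have hm0 : m ≠ 0 := by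
    rintro rfl
    apply hne
    rw [hm]
    simp
  obtain ⟨y, hy, hyt⟩ := hIVT (show θ a - m / 2 ∈ uIcc (θ a) (θ b) by
    rw [mem_uIcc]
    rcases le_total m 0 with h0 | h0
    · have : (m : ℝ) ≤ 0 := by exact_mod_cast h0
      left
      constructor <;> linarith
    · have : (0 : ℝ) ≤ m := by exact_mod_cast h0
      right
      constructor <;> linarith)
  -- move from `a` by at most one half
  obtain ⟨t, ht, htt⟩ : ∃ t ∈ uIcc a b, |θ t - θ a| = 1 / 2 := by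
    have hc : ContinuousOn (fun x => |θ x - θ a|) (uIcc a b) := (hθ.sub continuous_const).abs.continuousOn
    have hI := intermediate_value_uIcc hc
    obtain ⟨t, ht, ht'⟩ := hI (show (1 / 2 : ℝ) ∈ uIcc (|θ a - θ a|) (|θ b - θ a|) by
      rw [sub_self, abs_zero]
      have h1 : |θ b - θ a| = |(m : ℝ)| := by
        rw [hm, ← abs_neg]
        congr 1
        ring
      have h2 : 1 ≤ |(m : ℝ)| := by
        have : 1 ≤ |m| := Int.one_le_abs hm0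
        exact_mod_cast this
      rw [h1, uIcc_of_le (by linarith)]
      constructor <;> linarith)
    exact ⟨t, ht, ht'⟩
  obtain ⟨k, hk⟩ := Pool.Agent.RSG.ex_eq_iff.1 (h t ht)
  have h1 : |θ t - θ a| = |(k : ℝ)| := by
    rw [hk, ← abs_neg]
    congr 1
    ring
  rw [h1] at htt
  have h2 : (|k| : ℤ) * 2 = 1 := by
    have : (|(k : ℝ)|) * 2 = 1 := by rw [htt]; norm_num
    exact_mod_cast this
  omega

theorem Cls_ex {z w : ℂ} {a b : ℝ} (hz : z ≠ 0) (h : z = w) (h1 : z = ‖z‖ * ex a) (h2 : w = ‖w‖ * ex b) :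
    ex a = ex b := by
  subst h
  have hn : ((‖z‖ : ℝ) : ℂ) ≠ 0 := by
    rw [Complex.ofReal_ne_zero]
    exact norm_ne_zero_iff.2 hz
  apply mul_left_cancel₀ hn
  rw [← h1, ← h2]

/-- the angle is constant where the curve is -/
theorem Cls_lo (hD : Crv ρ₁ ρ₂ D) {θ : ℝ → ℝ} (hθ : Continuous θ) (eθ : ∀ ρ, D ρ = ‖D ρ‖ * ex (θ ρ))
    {ρ : ℝ} (hρ : ρ ≤ ρ₁) : θ ρ = θ ρ₁ := by
  refine Cls_const hθ fun x hx => ?_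
  rw [uIcc_of_ge hρ] at hx
  exact Cls_ex (hD.ne x) (hD.lo x hx.2) (eθ x) (eθ ρ₁)

theorem Cls_hi (hD : Crv ρ₁ ρ₂ D) {θ : ℝ → ℝ} (hθ : Continuous θ) (eθ : ∀ ρ, D ρ = ‖D ρ‖ * ex (θ ρ))
    {ρ : ℝ} (hρ : ρ₂ ≤ ρ) : θ ρ = θ ρ₂ := by
  refine Cls_const hθ fun x hx => ?_
  rw [uIcc_of_le hρ] at hx
  exact Cls_ex (hD.ne x) (hD.hi x hx.1) (eθ x) (eθ ρ₂)

theorem Cls_im (r θ : ℝ) : ((r : ℂ) * ex θ).im = r * Real.sin (2 * Real.pi * θ) := by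
  rw [Complex.im_ofReal_mul, Pool.Agent.RSG.ex_im]

theorem Cls_re (r θ : ℝ) : ((r : ℂ) * ex θ).re = r * Real.cos (2 * Real.pi * θ) := by
  rw [Complex.re_ofReal_mul, Pool.Agent.RSG.ex_re]

theorem Cls_nn {r : ℝ} (hr : 0 < r) (θ : ℝ) : ‖(r : ℂ) * ex θ‖ = r := by
  rw [norm_mul, Pool.Agent.RSG.ex_norm, mul_one, Complex.norm_real, Real.norm_of_nonneg hr.le]

theorem Cls_sin {θ : ℝ} (h1 : -(1 / 2) < θ) (h2 : θ < 0) : Real.sin (2 * Real.pi * θ) < 0 := by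
  apply Real.sin_neg_of_neg_of_neg_pi_lt
  · nlinarith [Real.pi_pos]
  · nlinarith [Real.pi_pos]

theorem cls0 (hv : VGood v) (hb : VB v p q) (hst : Steps ρ₁ ρ₂ g₁ g₃) (hD : PCrv ρ₁ ρ₂ d e D)
    (hD' : PCrv ρ₁ ρ₂ d e D') (hp : PData k d e (pl v p q (fin n₁))) {θ θ' : ℝ → ℝ} (hθ : ContDiff ℝ ∞ θ)
    (hθ' : ContDiff ℝ ∞ θ') (eθ : ∀ ρ, D ρ = ‖D ρ‖ * ex (θ ρ)) (eθ' : ∀ ρ, D' ρ = ‖D' ρ‖ * ex (θ' ρ))
    {R φ : ℝ} (hR : 0 < R) (h1 : (d : ℝ) = R * Real.cos (2 * Real.pi * φ))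
    (h2 : (e : ℝ) = R * Real.sin (2 * Real.pi * φ)) (a1 : -(1 / 2) < θ ρ₁) (a2 : θ ρ₁ < 0)
    (a1' : -(1 / 2) < θ' ρ₁) (a2' : θ' ρ₁ < 0) {N : ℤ} (b : |θ ρ₂ - φ - N| < 1 / 4)
    (b' : |θ' ρ₂ - φ - N| < 1 / 4) :
    GEq.{u} v (up v p q n₁ (pst k (pl v p q (fin n₁)) g₁ g₃ D)) (up v p q n₁ (pst k (pl v p q (fin n₁)) g₁ g₃ D')) := by
  obtain ⟨s₁, hs₁⟩ : ∃ s₁, s₁ = pl v p q (fin n₁) := ⟨_, rfl⟩
  have hnD : ContDiff ℝ ∞ fun ρ => ‖D ρ‖ := ContDiff.norm ℝ hD.crv.smooth hD.crv.ne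
  have hnD' : ContDiff ℝ ∞ fun ρ => ‖D' ρ‖ := ContDiff.norm ℝ hD'.crv.smooth hD'.crv.ne
  have n0 : ∀ ρ, 0 < ‖D ρ‖ := fun ρ => norm_pos_iff.2 (hD.crv.ne ρ)
  have n0' : ∀ ρ, 0 < ‖D' ρ‖ := fun ρ => norm_pos_iff.2 (hD'.crv.ne ρ)
  -- the curves
  obtain ⟨E, hE⟩ : ∃ E : ℝ → ℝ → ℂ, E = fun l ρ =>
      (((1 - l) * ‖D ρ‖ + l * ‖D' ρ‖ : ℝ) : ℂ) * ex ((1 - l) * θ ρ + l * θ' ρ) := ⟨_, rfl⟩
  have hr : ∀ l ρ : ℝ, 0 ≤ l → l ≤ 1 → 0 < (1 - l) * ‖D ρ‖ + l * ‖D' ρ‖ := by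
    intro l ρ l0 l1
    rcases l0.eq_or_lt with h | h
    · subst h
      simpa using n0 ρ
    · have h3 := mul_pos h (n0' ρ)
      have h4 := mul_nonneg (sub_nonneg.2 l1) (n0 ρ).le
      linarith
  have hPE : ∀ l : ℝ, 0 ≤ l → l ≤ 1 → PCrv ρ₁ ρ₂ d e (E l) := by
    intro l l0 l1
    have hEl : E l = fun ρ => (((1 - l) * ‖D ρ‖ + l * ‖D' ρ‖ : ℝ) : ℂ) * ex ((1 - l) * θ ρ + l * θ' ρ) := by
      rw [hE]
    refine ⟨⟨?_, ?_, ?_, ?_⟩, ?_, ?_, ?_⟩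
    · rw [hEl]
      refine ContDiff.mul (Complex.ofRealCLM.contDiff.comp ?_) (Pool.Agent.RSG.ex_smooth.comp ?_)
      · exact (contDiff_const.mul hnD).add (contDiff_const.mul hnD')
      · exact (contDiff_const.mul hθ).add (contDiff_const.mul hθ')
    · intro ρ
      rw [hEl]
      exact mul_ne_zero (Complex.ofReal_ne_zero.2 (hr l ρ l0 l1).ne') (Pool.Agent.RSG.ex_ne _)
    · intro ρ hρ
      rw [hEl]
      show (((1 - l) * ‖D ρ‖ + l * ‖D' ρ‖ : ℝ) : ℂ) * ex ((1 - l) * θ ρ + l * θ' ρ) =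
        (((1 - l) * ‖D ρ₁‖ + l * ‖D' ρ₁‖ : ℝ) : ℂ) * ex ((1 - l) * θ ρ₁ + l * θ' ρ₁)
      rw [Cls_lo hD.crv hθ.continuous eθ hρ, Cls_lo hD'.crv hθ'.continuous eθ' hρ, hD.crv.lo ρ hρ,
        hD'.crv.lo ρ hρ]
    · intro ρ hρ
      rw [hEl]
      show (((1 - l) * ‖D ρ‖ + l * ‖D' ρ‖ : ℝ) : ℂ) * ex ((1 - l) * θ ρ + l * θ' ρ) =
        (((1 - l) * ‖D ρ₂‖ + l * ‖D' ρ₂‖ : ℝ) : ℂ) * ex ((1 - l) * θ ρ₂ + l * θ' ρ₂)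
      rw [Cls_hi hD.crv hθ.continuous eθ hρ, Cls_hi hD'.crv hθ'.continuous eθ' hρ, hD.crv.hi ρ hρ,
        hD'.crv.hi ρ hρ]
    · intro ρ
      have h3 := hD.small ρ
      have h4 := hD'.small ρ
      rw [hEl]
      show ‖(((1 - l) * ‖D ρ‖ + l * ‖D' ρ‖ : ℝ) : ℂ) * ex ((1 - l) * θ ρ + l * θ' ρ)‖ * _ < 1
      rw [Cls_nn (hr l ρ l0 l1)]
      obtain ⟨C, hC⟩ : ∃ C : ℝ, C = ((|d| : ℤ) + (|e| : ℤ) + 1) := ⟨_, rfl⟩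
      rw [← hC] at h3 h4 ⊢
      rcases l0.eq_or_lt with h | h
      · subst h
        simpa using h3
      · nlinarith [mul_lt_mul_of_pos_left h4 h, mul_le_mul_of_nonneg_left h3.le (sub_nonneg.2 l1)]
    · rw [hEl]
      show ((((1 - l) * ‖D ρ₁‖ + l * ‖D' ρ₁‖ : ℝ) : ℂ) * ex ((1 - l) * θ ρ₁ + l * θ' ρ₁)).im < 0
      rw [Cls_im]
      refine mul_neg_of_pos_of_neg (hr l ρ₁ l0 l1) (Cls_sin ?_ ?_)
      · rcases l0.eq_or_lt with h | h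
        · subst h
          simpa using a1
        · nlinarith
      · rcases l0.eq_or_lt with h | h
        · subst h
          simpa using a2
        · nlinarith
    · rw [hEl]
      refine polar_pos hR h1 h2 (hr l ρ₂ l0 l1) (N := N) ?_
      have e1 : (1 - l) * θ ρ₂ + l * θ' ρ₂ - φ - N = (1 - l) * (θ ρ₂ - φ - N) + l * (θ' ρ₂ - φ - N) := by ring
      rw [e1]
      rw [abs_lt] at b b' ⊢
      rcases l0.eq_or_lt with h | h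
      · subst h
        simpa using b
      · constructor <;> nlinarith
  have hsp := pst_spath (s₁ := s₁) hst hD (hs₁ ▸ hp)
  have hsp' := pst_spath (s₁ := s₁) hst hD' (hs₁ ▸ hp)
  rw [← hs₁]
  refine hom_gcar hv hb (by rw [← hs₁]; exact hsp) (by rw [← hs₁]; exact hsp') ?_
  rw [← hs₁]
  obtain ⟨ε₀, hε₀, hg₁⟩ := hst.start
  obtain ⟨ε₁, hε₁, hg₃⟩ := hst.stop
  obtain ⟨ε, hε, hε1, hε2, hε3, hε4⟩ : ∃ ε : ℝ, 0 < ε ∧ ε ≤ ε₀ ∧ ε ≤ ε₁ ∧ ε ≤ ρ₂ ∧ ε ≤ 1 - ρ₂ := by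
    have h3 := hst.lo
    have h4 := hst.lt
    have h5 := hst.hi
    refine ⟨min (min ε₀ ε₁) (min ρ₂ (1 - ρ₂)), lt_min (lt_min hε₀ hε₁) (lt_min (by linarith) (by linarith)), ?_, ?_, ?_, ?_⟩
    · exact (min_le_left _ _).trans (min_le_left _ _)
    · exact (min_le_left _ _).trans (min_le_right _ _)
    · exact (min_le_right _ _).trans (min_le_left _ _)
    · exact (min_le_right _ _).trans (min_le_right _ _)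
  refine ⟨fun l => pst k s₁ g₁ g₃ (E l), ε, hε, ?_, ?_, ?_, ?_⟩
  · have hEc : Continuous fun q : ℝ × ℝ => E q.1 q.2 := by
      rw [hE]
      refine Continuous.mul (Complex.continuous_ofReal.comp ?_) (Pool.Agent.RSG.ex_smooth.continuous.comp ?_)
      · exact ((continuous_const.sub continuous_fst).mul (hnD.continuous.comp continuous_snd)).add
          (continuous_fst.mul (hnD'.continuous.comp continuous_snd))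
      · exact ((continuous_const.sub continuous_fst).mul (hθ.continuous.comp continuous_snd)).add
          (continuous_fst.mul (hθ'.continuous.comp continuous_snd))
    show Continuous fun q : ℝ × ℝ => (g₁ q.2 - g₃ q.2) •
      (((k : ℝ) + 1 / 2 + (E q.1 q.2).re, 1 + (E q.1 q.2).im) : ℝ × ℝ) + g₃ q.2 • s₁
    have hg1 := hst.sm₁.continuous.comp (continuous_snd (X := ℝ) (Y := ℝ))
    have hg3 := hst.sm₃.continuous.comp (continuous_snd (X := ℝ) (Y := ℝ))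
    refine ((hg1.sub hg3).smul (Continuous.prodMk ?_ ?_)).add (hg3.smul continuous_const)
    · exact continuous_const.add (Complex.continuous_re.comp hEc)
    · exact continuous_const.add (Complex.continuous_im.comp hEc)
  · show pst k s₁ g₁ g₃ (E 0) = pst k s₁ g₁ g₃ D
    congr 1
    funext ρ
    rw [hE]
    show (((1 - 0) * ‖D ρ‖ + 0 * ‖D' ρ‖ : ℝ) : ℂ) * ex ((1 - 0) * θ ρ + 0 * θ' ρ) = D ρ
    rw [sub_zero, one_mul, zero_mul, add_zero, one_mul, zero_mul, add_zero, ← eθ]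
  · show pst k s₁ g₁ g₃ (E 1) = pst k s₁ g₁ g₃ D'
    congr 1
    funext ρ
    rw [hE]
    show (((1 - 1) * ‖D ρ‖ + 1 * ‖D' ρ‖ : ℝ) : ℂ) * ex ((1 - 1) * θ ρ + 1 * θ' ρ) = D' ρ
    rw [sub_self, one_mul, zero_mul, zero_add, one_mul, zero_mul, zero_add, ← eθ']
  · intro l l0 l1
    have hS := pst_spath (s₁ := s₁) hst (hPE l l0 l1) (hs₁ ▸ hp)
    refine ⟨hS.smooth.continuous, ?_, ?_, hS.avoid⟩
    · intro ρ hρ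
      show (g₁ ρ - g₃ ρ) • (((k : ℝ) + 1 / 2 + (E l ρ).re, 1 + (E l ρ).im) : ℝ × ℝ) + g₃ ρ • s₁ = (0, 0)
      rw [hg₁ ρ (hρ.trans hε1), hst.zero ρ (hρ.trans hε3), sub_self, zero_smul, zero_smul, add_zero]
      rfl
    · intro ρ hρ
      show (g₁ ρ - g₃ ρ) • (((k : ℝ) + 1 / 2 + (E l ρ).re, 1 + (E l ρ).im) : ℝ × ℝ) + g₃ ρ • s₁ = s₁
      have h3 := hst.lt
      rw [hst.one ρ (by linarith), hg₃ ρ (by linarith), sub_self, zero_smul, one_smul, zero_add]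

/-- the clock of the turns -/
noncomputable def Cls_s (ρ₁ ρ₂ ρ : ℝ) : ℝ := Real.smoothTransition ((ρ - ρ₁) / (ρ₂ - ρ₁))

theorem Cls_s_smooth (ρ₁ ρ₂ : ℝ) : ContDiff ℝ ∞ (Cls_s ρ₁ ρ₂) := by
  unfold Cls_s
  exact Real.smoothTransition.contDiff.comp ((contDiff_id.sub contDiff_const).div_const _)

theorem Cls_s_lo {ρ₁ ρ₂ : ℝ} (h : ρ₁ < ρ₂) {ρ : ℝ} (hρ : ρ ≤ ρ₁) : Cls_s ρ₁ ρ₂ ρ = 0 := by
  unfold Cls_s
  apply Real.smoothTransition.zero_of_nonpos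
  exact div_nonpos_of_nonpos_of_nonneg (by linarith) (by linarith)

theorem Cls_s_hi {ρ₁ ρ₂ : ℝ} (h : ρ₁ < ρ₂) {ρ : ℝ} (hρ : ρ₂ ≤ ρ) : Cls_s ρ₁ ρ₂ ρ = 1 := by
  unfold Cls_s
  apply Real.smoothTransition.one_of_one_le
  rw [le_div_iff₀ (by linarith)]
  linarith

theorem Cls_one (hD : PCrv ρ₁ ρ₂ d e D) (ρ : ℝ) : ‖D ρ‖ < 1 := by
  have h := hD.small ρ
  push_cast at h
  have h1 : 0 ≤ ‖D ρ‖ := norm_nonneg _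
  have h2 : (0 : ℝ) ≤ |(d : ℝ)| + |(e : ℝ)| := by positivity
  nlinarith [mul_nonneg h1 h2]

theorem cls (hv : VGood v) (hb : VB v p q) (hst : Steps ρ₁ ρ₂ g₁ g₃) (hD : PCrv ρ₁ ρ₂ d e D)
    (hD' : PCrv ρ₁ ρ₂ d e D') (hp : PData k d e (pl v p q (fin n₁))) {θ θ' : ℝ → ℝ} (hθ : ContDiff ℝ ∞ θ)
    (hθ' : ContDiff ℝ ∞ θ') (eθ : ∀ ρ, D ρ = ‖D ρ‖ * ex (θ ρ)) (eθ' : ∀ ρ, D' ρ = ‖D' ρ‖ * ex (θ' ρ))
    {R φ : ℝ} (hR : 0 < R) (h1 : (d : ℝ) = R * Real.cos (2 * Real.pi * φ))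
    (h2 : (e : ℝ) = R * Real.sin (2 * Real.pi * φ)) (a1 : -(1 / 2) < θ ρ₁) (a2 : θ ρ₁ < 0)
    (a1' : -(1 / 2) < θ' ρ₁) (a2' : θ' ρ₁ < 0) {N N' : ℤ} (b : |θ ρ₂ - φ - N| < 1 / 4)
    (b' : |θ' ρ₂ - φ - N'| < 1 / 4) (hN : Even (N' - N)) :
    GEq.{u} v (up v p q n₁ (pst k (pl v p q (fin n₁)) g₁ g₃ D)) (up v p q n₁ (pst k (pl v p q (fin n₁)) g₁ g₃ D')) := by
  obtain ⟨i, hi⟩ := hN
  have hlt := hst.lt
  have hnD : ContDiff ℝ ∞ fun ρ => ‖D ρ‖ := ContDiff.norm ℝ hD.crv.smooth hD.crv.ne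
  have n0 : ∀ ρ, 0 < ‖D ρ‖ := fun ρ => norm_pos_iff.2 (hD.crv.ne ρ)
  obtain ⟨θ₂, hθ₂⟩ : ∃ θ₂ : ℝ → ℝ, θ₂ = fun ρ => θ ρ + 2 * i * Cls_s ρ₁ ρ₂ ρ := ⟨_, rfl⟩
  have sθ₂ : ContDiff ℝ ∞ θ₂ := by
    rw [hθ₂]
    exact hθ.add (contDiff_const.mul (Cls_s_smooth ρ₁ ρ₂))
  have lo₂ : ∀ ρ ≤ ρ₁, θ₂ ρ = θ ρ := by
    intro ρ hρ
    rw [hθ₂]
    show θ ρ + 2 * i * Cls_s ρ₁ ρ₂ ρ = θ ρ
    rw [Cls_s_lo hlt hρ, mul_zero, add_zero]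
  have hi₂ : ∀ ρ, ρ₂ ≤ ρ → θ₂ ρ = θ ρ + 2 * i := by
    intro ρ hρ
    rw [hθ₂]
    show θ ρ + 2 * i * Cls_s ρ₁ ρ₂ ρ = θ ρ + 2 * i
    rw [Cls_s_hi hlt hρ, mul_one]
  obtain ⟨D₂, hD₂⟩ : ∃ D₂ : ℝ → ℂ, D₂ = fun ρ => ((‖D ρ‖ : ℝ) : ℂ) * ex (θ₂ ρ) := ⟨_, rfl⟩
  have nD₂ : ∀ ρ, ‖D₂ ρ‖ = ‖D ρ‖ := by
    intro ρ
    rw [hD₂]
    exact Cls_nn (n0 ρ) _
  have eθ₂ : ∀ ρ, D₂ ρ = ‖D₂ ρ‖ * ex (θ₂ ρ) := by
    intro ρ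
    rw [nD₂, hD₂]
  have D₂lo : ∀ ρ ≤ ρ₁, D₂ ρ = D ρ := by
    intro ρ hρ
    rw [eθ₂, nD₂, lo₂ ρ hρ, ← eθ]
  have D₂hi : ∀ ρ, ρ₂ ≤ ρ → D₂ ρ = D ρ := by
    intro ρ hρ
    have h3 : θ ρ + 2 * (i : ℝ) = θ ρ + ((2 * i : ℤ) : ℝ) := by push_cast; ring
    rw [eθ₂, nD₂, hi₂ ρ hρ, h3, Pool.Agent.RSG.ex_add_int, ← eθ]
  have hP₂ : PCrv ρ₁ ρ₂ d e D₂ := by
    refine ⟨⟨?_, ?_, ?_, ?_⟩, ?_, ?_, ?_⟩
    · rw [hD₂]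
      exact (Complex.ofRealCLM.contDiff.comp hnD).mul (Pool.Agent.RSG.ex_smooth.comp sθ₂)
    · intro ρ h0
      have h3 := nD₂ ρ
      rw [h0, norm_zero] at h3
      exact (n0 ρ).ne h3
    · intro ρ hρ
      rw [D₂lo ρ hρ, D₂lo ρ₁ le_rfl, hD.crv.lo ρ hρ]
    · intro ρ hρ
      rw [D₂hi ρ hρ, D₂hi ρ₂ le_rfl, hD.crv.hi ρ hρ]
    · intro ρ
      rw [nD₂]
      exact hD.small ρ
    · rw [D₂lo ρ₁ le_rfl]
      exact hD.inn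
    · rw [D₂hi ρ₂ le_rfl]
      exact hD.out
  have hturn : ∀ (D₃ : ℝ → ℂ) (θ₃ : ℝ → ℝ), PCrv ρ₁ ρ₂ d e D₃ → ContDiff ℝ ∞ θ₃ →
      (∀ ρ, D₃ ρ = ‖D₃ ρ‖ * ex (θ₃ ρ)) →
      Turn (pl v p q (fin n₁)) k 1 ρ₁ ρ₂ (fun ρ => ‖D₃ ρ‖) θ₃ (pst k (pl v p q (fin n₁)) g₁ g₃ D₃) := by
    intro D₃ θ₃ hP₃ sθ₃ eθ₃
    refine ⟨pst_spath hst hP₃ hp, hst.lo, hst.lt, hst.lo', hst.hi,
      ContDiff.norm ℝ hP₃.crv.smooth hP₃.crv.ne, sθ₃,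
      fun ρ _ => ⟨norm_pos_iff.2 (hP₃.crv.ne ρ), Cls_one hP₃ ρ⟩, ?_⟩
    intro ρ hρ
    have h3 : (D₃ ρ).re = ‖D₃ ρ‖ * Real.cos (2 * Real.pi * θ₃ ρ) := by
      conv_lhs => rw [eθ₃ ρ]
      rw [Cls_re]
    have h4 : (D₃ ρ).im = ‖D₃ ρ‖ * Real.sin (2 * Real.pi * θ₃ ρ) := by
      conv_lhs => rw [eθ₃ ρ]
      rw [Cls_im]
    unfold pst pol
    rw [hst.one ρ hρ.1, hst.zero ρ hρ.2, sub_zero, one_smul, zero_smul, add_zero, h3, h4]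
    push_cast
    rfl
  have hstep : GEq.{u} v (up v p q n₁ (pst k (pl v p q (fin n₁)) g₁ g₃ D))
      (up v p q n₁ (pst k (pl v p q (fin n₁)) g₁ g₃ D₂)) := by
    refine turn_even hv hb (hturn D θ hD hθ eθ) (hturn D₂ θ₂ hP₂ sθ₂ eθ₂) ?_ (nD₂ ρ₁) (lo₂ ρ₁ le_rfl)
      (nD₂ ρ₂) i (hi₂ ρ₂ le_rfl)
    intro ρ hρ
    have h3 : D₂ ρ = D ρ := by
      by_cases h4 : ρ ≤ ρ₁
      · exact D₂lo ρ h4
      · refine D₂hi ρ ?_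
        by_contra h5
        exact hρ ⟨not_le.1 h4, not_le.1 h5⟩
    unfold pst
    rw [h3]
  refine hstep.trans ?_
  refine cls0 hv hb hst hP₂ hD' hp sθ₂ hθ' eθ₂ eθ' hR h1 h2 (N := N') ?_ ?_ a1' a2' ?_ b'
  · rw [lo₂ ρ₁ le_rfl]
    exact a1
  · rw [lo₂ ρ₁ le_rfl]
    exact a2
  · have h3 : (N' : ℝ) = N + 2 * i := by
      have : N' = N + 2 * i := by omega
      rw [this]
      push_cast
      ring
    rw [hi₂ ρ₂ le_rfl, h3]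
    have h4 : θ ρ₂ + 2 * (i : ℝ) - φ - (N + 2 * i) = θ ρ₂ - φ - N := by ring
    rw [h4]
    exact b

end Pool.Agent.STR
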