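import Pool.Agent.STR.SSg
import Pool.Agent.LNU.Fin

/-!
# STR/Main: everything carried by the star path is the 4-sphere
-/

open scoped Manifold ContDiff Topology
open Set Filter
open Complex (I)

namespace Pool.Agent.STR

open Pool.Agent.PTH
open Pool.Agent.GLB
open Pool.Agent.RSG (E4 S4)

universe u

theorem star_S4 (hΓ : CSW.WIn Gam.{u}) {v m m' : ℤ × ℤ × ℤ} (hv : VGood v) {ε : ℤ} {ρ₁ ρ₂ : ℝ} {g₀ g₁ g₃ : ℝ → ℝ}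
    {D : ℝ → ℂ} (hst : Steps ρ₁ ρ₂ g₁ g₃) (h : Star v m m' ε ρ₁ ρ₂ D) (hg : ContDiff ℝ ∞ g₀)
    (hg0 : ∃ ε : ℝ, 0 < ε ∧ ∀ ρ ≤ ε, g₀ ρ = 0) {j : ℤ} (hg1 : ∃ ε : ℝ, 0 < ε ∧ ∀ ρ, 1 - ε ≤ ρ → g₀ ρ = j) {n : ℤ}
    (hc : v.2.2 + n * (m.2.2 - m'.2.2 + j * v.2.2) = 1 ∨ v.2.2 + n * (m.2.2 - m'.2.2 + j * v.2.2) = -1)
    {X : Type u} [TopologicalSpace X] [ChartedSpace E4 X] [T2Space X]
    (hX : GCar v n (stw v m m' g₀ g₁ g₃ D) X) : Nonempty (X ≃ₘ⟮𝓡 4, 𝓡 4⟯ S4) := by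
  obtain ⟨n₁, w, hw, hm, hn, hw'⟩ := star_mono hΓ hv hst h hg hg0 hg1
  refine LNU.gcar_S4 hΓ hv hw hm (n := n) ?_ ((hw' n X).1 hX)
  have e : n₁.2.2 - (0 : ℤ × ℤ × ℤ).2.2 = m.2.2 - m'.2.2 + j * v.2.2 := by
    rw [hn]
    simp [ne]
  rw [e]
  exact hc

end Pool.Agent.STR
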