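import Pool.Agent.STR.Defs
import Pool.Agent.GLB.LLm

/-!
# STR/PSt: the planar path   (difficulty 2)

`O = (k + 1/2, 1)`, `f (X, Y) = d X + e Y`.  An obstacle `(i + 1/2, j)` has `f (obstacle - O) = d (i - k) + e (j - 1) ∈ Z`.
* `pst_avoid`: let `γ = (g₁, g₃)` be as in `Steps`, `Bd D : 0 < |D| < 1`, `-1 < im D`, etc.  For `ρ ≤ ρ₁`: `pst = g₁ (O + D)`: second coordinate `g₁ (1 + im D) ∈ [0, 1)` (`-1 < im D < 0`), `0` only if `g₁ = 0`: then the point is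
  `(0, 0)`, not an obstacle (`i + 1/2 = 0` impossible).  For `ρ₁ ≤ ρ ≤ ρ₂`: `O + D` with `0 < ‖D‖ < 1`: not an obstacle (two obstacles have distance `≥ 1`).  For `ρ ≥ ρ₂`: relative to `O`: `(1 - g₃) D + g₃ (s₁ - O)`,
  `f = (1 - g₃) f (D) + g₃`, `0 < f (D) < 1` (`f (D) ≤ (|d| + |e|) ‖D‖ < 1`): in `(0, 1)` if `g₃ < 1`: no obstacle; if `g₃ = 1` it is `s₁`.
* `pst_spath`: smooth; start: `g₁ = g₃ = 0`; stop: `g₁ = g₃ = 1`.
* `stw_pl` (`ε = 1`, `(p, q) = (m₂, m₃)`, `VB v m₂ m₃` is `h1`): `pl` is affine with linear part `L`, `L v = 0`, `L e₁ = (1, 0)`, `L m = (m₁, 1)`, `pl (1/2, 0, 0) = 0`, `pl m = (m₁ - 1/2, 1)`; the weights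
  `1 - g₁, g₁ - g₃, g₃` have sum 1.  So `pl (stw ρ) = pst (m₁ - 1) (pl (fin n₁)) g₁ g₃ (shr m₁ D) ρ` with `shr μ D = D + μ (im D)`, `n₁ = m - m' + j v`.  (Write everything in coordinates and use `h1` : `d m₂ - b m₃ = 1`.)
* `stw_pdata`: `d = v₃`, `e = - v₁ m₃`; `f (pl x - O) = ht2 x - ht2 m`; for `x = fin n₁`: `- ht2 m' = 1`.  `stw_pcrv`: `‖shr μ D‖ ≤ (|μ| + 1) ‖D‖`, `f (shr m₁ D) = v₃ re D + hz2 v m * im D`.
* `stw_gpath`: smooth; start: `g₀ = g₁ = g₃ = 0`; stop: `g₀ = j`, `g₁ = g₃ = 1`: `fin (m - m' + j v)`; avoid: `GLB.obs_pl` and `pst_spath` (`stw_pl`).  For `ε = 1` only.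
-/

open scoped Manifold ContDiff Topology
open Set Filter
open Complex (I)

namespace Pool.Agent.STR

open Pool.Agent.PTH
open Pool.Agent.GLB

variable {ρ₁ ρ₂ : ℝ} {g₀ g₁ g₃ : ℝ → ℝ} {D : ℝ → ℂ} {k d e : ℤ} {s₁ : ℝ × ℝ}

/-- the values of the linear form on `D` -/
theorem pcrv_f (h : PCrv ρ₁ ρ₂ d e D) (ρ : ℝ) : |d * (D ρ).re + e * (D ρ).im| < 1 := by
  have h1 := h.small ρ
  have hr : |(D ρ).re| ≤ ‖D ρ‖ := Complex.abs_re_le_norm _
  have hi : |(D ρ).im| ≤ ‖D ρ‖ := Complex.abs_im_le_norm _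
  push_cast at h1
  have hd : (0 : ℝ) ≤ |(d : ℝ)| := abs_nonneg _
  have he : (0 : ℝ) ≤ |(e : ℝ)| := abs_nonneg _
  have hn := norm_nonneg (D ρ)
  have h2 : |d * (D ρ).re + e * (D ρ).im| ≤ |(d : ℝ)| * |(D ρ).re| + |(e : ℝ)| * |(D ρ).im| := by
    rw [← abs_mul, ← abs_mul]
    exact abs_add_le _ _
  have h3 : |(d : ℝ)| * |(D ρ).re| ≤ |(d : ℝ)| * ‖D ρ‖ := mul_le_mul_of_nonneg_left hr hd
  have h4 : |(e : ℝ)| * |(D ρ).im| ≤ |(e : ℝ)| * ‖D ρ‖ := mul_le_mul_of_nonneg_left hi he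
  nlinarith

theorem pst_spath (hst : Steps ρ₁ ρ₂ g₁ g₃) (hD : PCrv ρ₁ ρ₂ d e D) (hp : PData k d e s₁) :
    SPath (0, 0) s₁ (pst k s₁ g₁ g₃ D) := by
  have hsm : ContDiff ℝ ∞ D := hD.crv.smooth
  have hre : ContDiff ℝ ∞ fun ρ => (D ρ).re := Complex.reCLM.contDiff.comp hsm
  have him : ContDiff ℝ ∞ fun ρ => (D ρ).im := Complex.imCLM.contDiff.comp hsm
  obtain ⟨ε, hε, hs⟩ := hst.start
  obtain ⟨ε', hε', hs'⟩ := hst.stop
  have hlt := hst.lt
  have hde : (1 : ℝ) ≤ (|d| : ℤ) + (|e| : ℤ) + 1 := by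
    push_cast
    have h1 := abs_nonneg (d : ℝ)
    have h2 := abs_nonneg (e : ℝ)
    linarith
  have hnD : ∀ ρ, ‖D ρ‖ < 1 := fun ρ => by
    have h1 := hD.small ρ
    have h2 := norm_nonneg (D ρ)
    nlinarith
  refine ⟨?_, ⟨min ε ρ₁, lt_min hε hst.lo, ?_⟩, ⟨min ε' (1 - ρ₂), lt_min hε' (by linarith [hst.hi]), ?_⟩, ?_⟩
  · unfold pst
    exact ((hst.sm₁.sub hst.sm₃).smul ((contDiff_const.add hre).prodMk (contDiff_const.add him))).add
      (hst.sm₃.smul contDiff_const)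
  · intro ρ hρ
    have h1 : g₁ ρ = 0 := hs ρ (hρ.trans (min_le_left _ _))
    have h2 : g₃ ρ = 0 := hst.zero ρ (by have := hρ.trans (min_le_right _ _); linarith)
    simp [pst, h1, h2]
    rfl
  · intro ρ hρ
    have h3 : g₃ ρ = 1 := hs' ρ (by have := min_le_left ε' (1 - ρ₂); linarith)
    have h1 : g₁ ρ = 1 := hst.one ρ (by have := min_le_right ε' (1 - ρ₂); linarith)
    simp [pst, h1, h3]
  · rintro ρ ⟨i, l, hil⟩
    have hg1 : 0 ≤ g₁ ρ := by
      by_cases hh : ρ ≤ ε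
      · exact (hs ρ hh).ge
      · have := hst.mono₁ (le_of_not_ge hh)
        rw [hs ε le_rfl] at this
        exact this
    have e1 : (pst k s₁ g₁ g₃ D ρ).1 = (i : ℝ) + 1 / 2 := by rw [hil]
    have e2 : (pst k s₁ g₁ g₃ D ρ).2 = (l : ℝ) := by rw [hil]
    simp only [pst, Prod.fst_add, Prod.snd_add, Prod.smul_fst, Prod.smul_snd, smul_eq_mul] at e1 e2
    rcases le_or_gt ρ ρ₁ with h1 | h1
    · have h3 : g₃ ρ = 0 := hst.zero ρ (by linarith)
      have h4 : g₁ ρ ≤ 1 := by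
        have := hst.mono₁ h1
        rwa [hst.one ρ₁ le_rfl] at this
      have h5 : D ρ = D ρ₁ := hD.crv.lo ρ h1
      have h6 := hD.inn
      rw [← h5] at h6
      have h7 : |(D ρ).im| ≤ ‖D ρ‖ := Complex.abs_im_le_norm _
      have h8 := hnD ρ
      have h9 := (abs_le.1 (h7.trans h8.le)).1
      rw [h3] at e1 e2
      rcases hg1.eq_or_lt with h0 | h0
      · rw [← h0] at e1
        have : (2 * i + 1 : ℝ) = 0 := by linarith
        have h' : (2 * i + 1 : ℤ) = 0 := by exact_mod_cast this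
        omega
      · have hl : (l : ℝ) = g₁ ρ * (1 + (D ρ).im) := by linarith
        have hl0 : (0 : ℝ) ≤ l := by
          rw [hl]
          exact mul_nonneg hg1 (by linarith)
        have hlpos : (0 : ℝ) < l := by
          rw [hl]
          refine mul_pos h0 ?_
          have := (abs_lt.1 (lt_of_le_of_lt h7 h8)).1
          linarith
        have hl1 : (l : ℝ) < 1 := by
          rw [hl]
          nlinarith
        have a1 : (0 : ℤ) < l := by exact_mod_cast hlpos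
        have a2 : l < (1 : ℤ) := by exact_mod_cast hl1
        omega
    · rcases le_or_gt ρ ρ₂ with h2 | h2
      · have h3 : g₃ ρ = 0 := hst.zero ρ h2
        have h4 : g₁ ρ = 1 := hst.one ρ h1.le
        rw [h3, h4] at e1 e2
        have a1 : (D ρ).re = ((i - k : ℤ) : ℝ) := by
          push_cast
          linarith
        have a2 : (D ρ).im = ((l - 1 : ℤ) : ℝ) := by
          push_cast
          linarith
        have b1 : |(D ρ).re| < 1 := lt_of_le_of_lt (Complex.abs_re_le_norm _) (hnD ρ)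
        have b2 : |(D ρ).im| < 1 := lt_of_le_of_lt (Complex.abs_im_le_norm _) (hnD ρ)
        rw [a1, ← Int.cast_abs] at b1
        rw [a2, ← Int.cast_abs] at b2
        have c1 : |i - k| < 1 := by exact_mod_cast b1
        have c2 : |l - 1| < 1 := by exact_mod_cast b2
        rw [Int.abs_lt_one_iff] at c1 c2
        rw [c1] at a1
        rw [c2] at a2
        refine hD.crv.ne ρ (Complex.ext ?_ ?_)
        · rw [a1]
          simp
        · rw [a2]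
          simp
      · have h4 : g₁ ρ = 1 := hst.one ρ (by linarith)
        have h5 : D ρ = D ρ₂ := hD.crv.hi ρ h2.le
        have h6 := hD.out
        rw [← h5] at h6
        have h7 := pcrv_f hD ρ
        rw [abs_of_pos h6] at h7
        have h8 : 0 ≤ g₃ ρ := by
          have := hst.mono₃ h2.le
          rwa [hst.zero ρ₂ le_rfl] at this
        have h9 : g₃ ρ ≤ 1 := by
          rcases le_or_gt ρ (1 - ε') with hh | hh
          · have := hst.mono₃ hh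
            rwa [hs' (1 - ε') le_rfl] at this
          · exact (hs' ρ hh.le).le
        rw [h4] at e1 e2
        have hf := hp.f1
        rcases h9.eq_or_lt with h10 | h10
        · refine hp.obs ⟨i, l, ?_⟩
          rw [← hil]
          simp [pst, h4, h10]
        · -- the form
          have key : ((d * (i - k) + e * (l - 1) : ℤ) : ℝ) = (1 - g₃ ρ) * (d * (D ρ).re + e * (D ρ).im) + g₃ ρ := by
            push_cast
            linear_combination (-(d : ℝ)) * e1 + (-(e : ℝ)) * e2 + (g₃ ρ) * hf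
          have k0 : (0 : ℝ) < ((d * (i - k) + e * (l - 1) : ℤ) : ℝ) := by
            rw [key]
            have : 0 < (1 - g₃ ρ) * (d * (D ρ).re + e * (D ρ).im) := mul_pos (by linarith) h6
            linarith
          have k1 : ((d * (i - k) + e * (l - 1) : ℤ) : ℝ) < 1 := by
            rw [key]
            have : (1 - g₃ ρ) * (d * (D ρ).re + e * (D ρ).im) < (1 - g₃ ρ) * 1 :=
              mul_lt_mul_of_pos_left h7 (by linarith)
            linarith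
          have k0' : (0 : ℤ) < d * (i - k) + e * (l - 1) := by exact_mod_cast k0
          have k1' : d * (i - k) + e * (l - 1) < (1 : ℤ) := by exact_mod_cast k1
          omega

/-- the shear -/
noncomputable def shr (μ : ℤ) (D : ℝ → ℂ) (ρ : ℝ) : ℂ := D ρ + ((μ * (D ρ).im : ℝ) : ℂ)

variable {v m m' : ℤ × ℤ × ℤ} {j : ℤ}

/-- the second foot of `stw` -/
def ne (v m m' : ℤ × ℤ × ℤ) (j : ℤ) : ℤ × ℤ × ℤ :=
  (m.1 - m'.1 + j * v.1, m.2.1 - m'.2.1 + j * v.2.1, m.2.2 - m'.2.2 + j * v.2.2)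

theorem stw_pl (h1 : hz1 v m = 1) (j : ℤ) (ρ : ℝ) :
    pl v m.2.1 m.2.2 (stw v m m' g₀ g₁ g₃ D ρ) =
      pst (m.1 - 1) (pl v m.2.1 m.2.2 (fin (ne v m m' j))) g₁ g₃ (shr m.1 D) ρ := by
  have h1' : (v.2.2 : ℝ) * m.2.1 - v.2.1 * m.2.2 = 1 := by exact_mod_cast h1
  refine Prod.ext ?_ ?_
  · simp only [pl, cX, cC, stw, pst, shr, ne, fin, rv, Prod.fst_add, Prod.snd_add, Prod.smul_fst, Prod.smul_snd, Prod.fst_sub,
      Prod.snd_sub, smul_eq_mul, Complex.add_re, Complex.add_im, Complex.ofReal_re, Complex.ofReal_im]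
    push_cast
    linear_combination (-((g₀ ρ - g₃ ρ * j) * v.1)) * h1'
  · simp only [pl, ht1, stw, pst, shr, ne, fin, rv, Prod.fst_add, Prod.snd_add, Prod.smul_fst, Prod.smul_snd, Prod.fst_sub,
      Prod.snd_sub, smul_eq_mul, Complex.add_re, Complex.add_im, Complex.ofReal_re, Complex.ofReal_im]
    push_cast
    linear_combination ((g₁ ρ - g₃ ρ) * (1 + (D ρ).im)) * h1'

theorem stw_pcrv (h : Star v m m' 1 ρ₁ ρ₂ D) : PCrv ρ₁ ρ₂ v.2.2 (-(v.1 * m.2.2)) (shr m.1 D) := by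
  have hsm : ContDiff ℝ ∞ D := h.crv.smooth
  have him : ContDiff ℝ ∞ fun ρ => (D ρ).im := Complex.imCLM.contDiff.comp hsm
  refine ⟨⟨?_, ?_, ?_, ?_⟩, ?_, ?_, ?_⟩
  · exact hsm.add (Complex.ofRealCLM.contDiff.comp (contDiff_const.mul him))
  · intro ρ h0
    have h1 := congrArg Complex.im h0
    simp only [shr, Complex.add_im, Complex.ofReal_im, Complex.zero_im, add_zero] at h1
    have h2 := congrArg Complex.re h0
    simp only [shr, Complex.add_re, Complex.ofReal_re, Complex.zero_re, h1, mul_zero, add_zero] at h2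
    exact h.crv.ne ρ (Complex.ext (by rw [h2]; rfl) (by rw [h1]; rfl))
  · intro ρ hρ
    simp only [shr, h.crv.lo ρ hρ]
  · intro ρ hρ
    simp only [shr, h.crv.hi ρ hρ]
  · intro ρ
    have h1 := h.small ρ
    have h2 : ‖shr m.1 D ρ‖ ≤ (|(m.1 : ℝ)| + 1) * ‖D ρ‖ := by
      have h3 : ‖shr m.1 D ρ‖ ≤ ‖D ρ‖ + ‖(((m.1 : ℝ) * (D ρ).im : ℝ) : ℂ)‖ := norm_add_le _ _
      rw [Complex.norm_real, Real.norm_eq_abs, abs_mul] at h3
      have h4 : |(D ρ).im| ≤ ‖D ρ‖ := Complex.abs_im_le_norm _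
      have h5 := mul_le_mul_of_nonneg_left h4 (abs_nonneg (m.1 : ℝ))
      linarith
    push_cast at h1 ⊢
    have a1 := abs_nonneg (m.1 : ℝ)
    have a2 := abs_nonneg (v.2.2 : ℝ)
    have a3 : 0 ≤ |(v.1 : ℝ) * m.2.2| := abs_nonneg _
    have a4 := norm_nonneg (D ρ)
    rw [abs_neg]
    have a5 : 0 < |(v.2.2 : ℝ)| + |(v.1 : ℝ) * m.2.2| + 1 := by linarith
    have a6 : ‖shr m.1 D ρ‖ * (|(v.2.2 : ℝ)| + |(v.1 : ℝ) * m.2.2| + 1) ≤
        ((|(m.1 : ℝ)| + 1) * ‖D ρ‖) * (|(v.2.2 : ℝ)| + |(v.1 : ℝ) * m.2.2| + 1) :=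
      mul_le_mul_of_nonneg_right h2 a5.le
    have a7 : 0 ≤ ‖D ρ‖ * (|(v.2.2 : ℝ)| + |(v.1 : ℝ) * m.2.2| + 1) := mul_nonneg a4 a5.le
    have a8 : (|(m.1 : ℝ)| + 1) * ‖D ρ‖ * (|(v.2.2 : ℝ)| + |(v.1 : ℝ) * m.2.2| + 1) =
      ‖D ρ‖ * ((|(m.1 : ℝ)| + 2) * (|(v.2.2 : ℝ)| + |(v.1 : ℝ) * m.2.2| + 1)) -
        ‖D ρ‖ * (|(v.2.2 : ℝ)| + |(v.1 : ℝ) * m.2.2| + 1) := by ring
    linarith
  · have := h.inn
    simpa [shr] using this
  · have := h.out
    simp only [shr, Complex.add_re, Complex.add_im, Complex.ofReal_re, Complex.ofReal_im, hz2] at this ⊢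
    push_cast at this ⊢
    linarith

theorem stw_pdata (hv : VGood v) (h : Star v m m' 1 ρ₁ ρ₂ D) (j : ℤ) :
    PData (m.1 - 1) v.2.2 (-(v.1 * m.2.2)) (pl v m.2.1 m.2.2 (fin (ne v m m' j))) := by
  have h1 : (v.2.2 : ℝ) * m.2.1 - v.2.1 * m.2.2 = 1 := by exact_mod_cast h.h1
  have h2 : (v.2.2 : ℝ) * m'.1 - v.1 * m'.2.2 = -1 := by exact_mod_cast h.h2
  refine ⟨?_, ?_, ?_⟩
  · have := hv.odd
    intro h0
    rw [h0] at this
    norm_num at this
  · simp only [pl, cX, cC, ht1, ne, fin]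
    push_cast
    linear_combination (-(v.1 : ℝ) * (m.2.2 - m'.2.2 + j * v.2.2)) * h1 - h2
  · rintro ⟨i, l, hil⟩
    have e2 := congrArg Prod.snd hil
    simp only [pl, ht1, ne, fin] at e2
    have hodd := hv.odd
    have e3 : ((v.2.2 : ℤ) : ℝ) = ((2 * (l - v.2.2 * (m.2.1 - m'.2.1 + j * v.2.1) + v.2.1 * (m.2.2 - m'.2.2 + j * v.2.2)) : ℤ) : ℝ) := by
      push_cast at e2 ⊢
      linarith
    have e4 : v.2.2 = 2 * (l - v.2.2 * (m.2.1 - m'.2.1 + j * v.2.1) + v.2.1 * (m.2.2 - m'.2.2 + j * v.2.2)) := by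
      exact_mod_cast e3
    omega

theorem stw_gpath (hv : VGood v) (hst : Steps ρ₁ ρ₂ g₁ g₃) (h : Star v m m' 1 ρ₁ ρ₂ D) (hg : ContDiff ℝ ∞ g₀)
    (hg0 : ∃ ε : ℝ, 0 < ε ∧ ∀ ρ ≤ ε, g₀ ρ = 0) (hg1 : ∃ ε : ℝ, 0 < ε ∧ ∀ ρ, 1 - ε ≤ ρ → g₀ ρ = j) :
    GPath v 0 (ne v m m' j) (stw v m m' g₀ g₁ g₃ D) := by
  have hsm : ContDiff ℝ ∞ D := h.crv.smooth
  have hre : ContDiff ℝ ∞ fun ρ => (D ρ).re := Complex.reCLM.contDiff.comp hsm
  have him : ContDiff ℝ ∞ fun ρ => (D ρ).im := Complex.imCLM.contDiff.comp hsm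
  obtain ⟨ε, hε, hs⟩ := hst.start
  obtain ⟨ε', hε', hs'⟩ := hst.stop
  obtain ⟨δ, hδ, hg0⟩ := hg0
  obtain ⟨δ', hδ', hg1⟩ := hg1
  have hlt := hst.lt
  have hhi := hst.hi
  have hb : VB v m.2.1 m.2.2 := h.h1
  refine ⟨?_, ⟨min (min ε δ) ρ₁, lt_min (lt_min hε hδ) hst.lo, ?_⟩, ⟨min (min ε' δ') (1 - ρ₂), lt_min (lt_min hε' hδ') (by linarith), ?_⟩, ?_⟩
  · unfold stw
    exact (((hg.smul contDiff_const).add ((contDiff_const.sub hst.sm₁).smul contDiff_const)).add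
      ((hst.sm₁.sub hst.sm₃).smul ((contDiff_const.add (hre.prodMk contDiff_const)).add (him.smul contDiff_const)))).add
      (hst.sm₃.smul contDiff_const)
  · intro ρ hρ
    have h1 : g₁ ρ = 0 := hs ρ (hρ.trans ((min_le_left _ _).trans (min_le_left _ _)))
    have h2 : g₀ ρ = 0 := hg0 ρ (hρ.trans ((min_le_left _ _).trans (min_le_right _ _)))
    have h3 : g₃ ρ = 0 := hst.zero ρ (by have := hρ.trans (min_le_right _ _); linarith)
    simp [stw, h1, h2, h3]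
  · intro ρ hρ
    have b1 := min_le_left (min ε' δ') (1 - ρ₂)
    have b2 := min_le_right (min ε' δ') (1 - ρ₂)
    have b3 := min_le_left ε' δ'
    have b4 := min_le_right ε' δ'
    have h3 : g₃ ρ = 1 := hs' ρ (by linarith)
    have h2 : g₀ ρ = j := hg1 ρ (by linarith)
    have h1 : g₁ ρ = 1 := hst.one ρ (by linarith)
    refine Prod.ext ?_ (Prod.ext ?_ ?_) <;> simp [stw, h1, h2, h3, ne, rv] <;> ring
  · intro ρ s k hk
    refine (pst_spath hst (stw_pcrv h) (stw_pdata hv h j)).avoid ρ ?_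
    rw [← stw_pl (m' := m') (g₀ := g₀) h.h1 j ρ]
    exact (obs_pl hb _).2 ⟨s, k, hk⟩

end Pool.Agent.STR
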