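import Pool.Agent.GLB.PHa

/-!
# STR/PhS: two homotopies   (difficulty 2)

* `ph_strip'` (mirror image in time of `GLB.ph_strip`, same proof): `u = u'` on `ρ ≥ ρ₀`, and for `ρ ≤ ρ₀` both have second coordinate in `[0, 1)`.  Let `ε` be such that both are equal to `s₀` for
  `ρ ≤ ε`, `ψ ρ = 0` for `ρ ≤ ε`, `ρ ≥ ρ₀`, `0 < ψ ρ ≤ 1` for `ε < ρ < ρ₀` (`ψ ρ = max 0 (min 1 (min (ρ - ε) (ρ₀ - ρ)))`).  `u ~ U`, `U = (u₁, (1 - ψ) u₂ + ψ / 2)` by `H l = (u₁, (1 - l ψ) u₂ + l ψ / 2)`: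
  where `l ψ = 0` it is `u`, where `l ψ > 0` the second coordinate is in `(0, 1)`.  `U ~ U'` linear (`ph_linear`): where `ψ ρ = 0` both are equal, where `ψ ρ > 0` both second coordinates are in `(0, 1)`.
  (If `ρ₀ ≤ ε` then `u = u'`.)
* `ph_half`: `u ~ hf u`, `hf u ρ = u (2 ρ - 1)`: homotopy `H l ρ = u (ρ + l (ρ - 1))` (`ρ + l (ρ - 1) ≤ ε` for `ρ ≤ ε`; for `ρ ≥ 1 - ε/2`: `ρ + l (ρ - 1) ≥ 1 - ε`).
-/

open scoped Manifold ContDiff Topology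
open Set Filter

namespace Pool.Agent.STR

open Pool.Agent.PTH
open Pool.Agent.GLB

variable {s₀ s₁ : ℝ × ℝ} {u u' : ℝ → ℝ × ℝ} {ε : ℝ}

theorem PhS_rev (h : CPath s₀ s₁ ε u) : CPath s₁ s₀ ε (fun ρ => u (1 - ρ)) :=
  ⟨h.cont.comp (continuous_const.sub continuous_id), fun ρ hρ => h.stop _ (by linarith),
    fun ρ hρ => h.start _ (by linarith), fun ρ => h.avoid _⟩

theorem PhS_rev_ph (h : PH s₀ s₁ u u') : PH s₁ s₀ (fun ρ => u (1 - ρ)) (fun ρ => u' (1 - ρ)) := by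
  obtain ⟨H, ε, hε, hc, h0, h1, hp⟩ := h
  refine ⟨fun l ρ => H l (1 - ρ), ε, hε, ?_, ?_, ?_, ?_⟩
  · exact hc.comp (g := fun q : ℝ × ℝ => H q.1 q.2) (f := fun q : ℝ × ℝ => (q.1, 1 - q.2))
      (continuous_fst.prodMk (continuous_const.sub continuous_snd))
  · funext ρ
    show H 0 (1 - ρ) = u (1 - ρ)
    rw [h0]
  · funext ρ
    show H 1 (1 - ρ) = u' (1 - ρ)
    rw [h1]
  · intro l hl0 hl1
    exact PhS_rev (hp l hl0 hl1)

theorem ph_strip' (hε : 0 < ε) (h : CPath s₀ s₁ ε u) (h' : CPath s₀ s₁ ε u') {ρ₀ : ℝ}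
    (he : ∀ ρ, ρ₀ ≤ ρ → u ρ = u' ρ) (hs : ∀ ρ ≤ ρ₀, 0 ≤ (u ρ).2 ∧ (u ρ).2 < 1)
    (hs' : ∀ ρ ≤ ρ₀, 0 ≤ (u' ρ).2 ∧ (u' ρ).2 < 1) : PH s₀ s₁ u u' := by
  have h1 := ph_strip (ρ₀ := 1 - ρ₀) (N := 0) hε (PhS_rev h) (PhS_rev h')
    (fun ρ hρ => he _ (by linarith))
    (fun ρ hρ => by
      have := hs (1 - ρ) (by linarith)
      simpa using this)
    (fun ρ hρ => by
      have := hs' (1 - ρ) (by linarith)
      simpa using this)
  have h2 := PhS_rev_ph h1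
  simpa using h2

/-- the path is compressed to `[1/2, 1]` -/
def hf (u : ℝ → ℝ × ℝ) (ρ : ℝ) : ℝ × ℝ := u (2 * ρ - 1)

theorem hf_spath (h : SPath s₀ s₁ u) : SPath s₀ s₁ (hf u) := by
  obtain ⟨ε, hε, h1⟩ := h.start
  obtain ⟨ε', hε', h2⟩ := h.stop
  refine ⟨?_, ⟨1 / 2, by norm_num, ?_⟩, ⟨ε' / 2, by linarith, ?_⟩, fun ρ => h.avoid _⟩
  · exact h.smooth.comp (by fun_prop)
  · intro ρ hρ
    exact h1 _ (by linarith)
  · intro ρ hρ
    exact h2 _ (by linarith)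

theorem ph_half (h : SPath s₀ s₁ u) : PH s₀ s₁ u (hf u) := by
  obtain ⟨ε, hε, hc⟩ := SPath.cpath h
  have hm : 0 < min ε 1 / 2 := by
    have := lt_min hε one_pos
    linarith
  have hm1 : min ε 1 ≤ ε := min_le_left _ _
  have hm2 : min ε 1 ≤ 1 := min_le_right _ _
  refine ⟨fun l ρ => u (ρ + l * (ρ - 1)), min ε 1 / 2, hm, ?_, ?_, ?_, ?_⟩
  · exact hc.cont.comp (continuous_snd.add (continuous_fst.mul (continuous_snd.sub continuous_const)))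
  · funext ρ
    simp
  · funext ρ
    show u (ρ + 1 * (ρ - 1)) = u (2 * ρ - 1)
    congr 1
    ring
  · intro l hl0 hl1
    refine ⟨hc.cont.comp (by fun_prop), ?_, ?_, fun ρ => hc.avoid _⟩
    · intro ρ hρ
      refine hc.start _ ?_
      have : l * (ρ - 1) ≤ 0 := mul_nonpos_of_nonneg_of_nonpos hl0 (by linarith)
      linarith
    · intro ρ hρ
      refine hc.stop _ ?_
      rcases le_total ρ 1 with h1 | h1
      · nlinarith
      · have : 0 ≤ l * (ρ - 1) := mul_nonneg hl0 (by linarith)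
        linarith

end Pool.Agent.STR
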