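import Pool.Agent.STR.PSt
import Pool.Agent.STR.Plr

/-!
# STR/RLp: the two straight passages of the obstacle   (difficulty 3)

In the coordinates `(f, Y)`, `f = d X + e Y` (`X = (f - e Y) / d`): for `κ > 0` small and `σ ρ = smoothTransition ((ρ - ρ₁) / (ρ₂ - ρ₁))`
 `R`: `(f, Y) = (-κ + 2 κ σ, -κ)` (below the obstacle),   `L`: `(f, Y) = (-κ + 2 κ σ, -κ + 4 κ σ)` (above it).
`D = X + i Y`.  Nonzero: `R`: `Y ≠ 0`; `L`: `f = 0` means `σ = 1/2`, `Y = κ`.  Small: `‖D‖ ≤ |X| + |Y| ≤ (κ + 3 |e| κ) + 3 κ` (`|d| ≥ 1`): `κ = 1 / (4 (|e| + 2) (|d| + |e| + 1))` is small enough (check: `‖D‖ (|d| + |e| + 1) ≤ κ (4 + 3 |e|) (..) < 1`).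
`inn`: `Y (ρ₁) = -κ < 0`; `out`: `f (ρ₂) = κ > 0`; `-1 < f (ρ₁) < 0`, `f (ρ₂) < 1`; `f` is monotone.
Angles: let `θ` be the smooth angle with `θ ρ₁ ∈ (-1/2, 0)` (`polar_inn`), `N` the integer with `|θ ρ₂ - φ - N| < 1/4` (`polar_out`).  By continuity (intermediate value theorem: `θ` cannot cross a half integer or integer while `Y ≠ 0`:
`Y = ‖D‖ sin (2πθ)`):
 `R`: `Y < 0` always: `θ ρ₂ ∈ (-1/2, 0)`.
 `L`: `Y < 0` for `σ < 1/4`, `Y = 0` at the (unique up to constancy) time `ρ*` with `σ = 1/4`, where `X = -κ / (2 d)`; `Y > 0` for `σ > 1/4`.  If `d > 0`: `X < 0` at `ρ*`, so `θ ρ* = -1/2` (it is in `[-1/2, 0]`, `cos (2πθ) < 0`, `sin = 0`), and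
 for `ρ > ρ*`: `θ ∈ (-1, -1/2)` (`sin > 0`, continuous, starts at `-1/2`).  If `d < 0`: `X > 0`, `θ ρ* = 0`, and `θ ∈ (0, 1/2)` afterwards.
 `d > 0`: `cos (2πφ) > 0`, let `φ ∈ (M - 1/4, M + 1/4)`, `M` an integer.  `R`: `θ ρ₂ ∈ (-1/2, 0)`, `|θ ρ₂ - φ - N| < 1/4`: `θ ρ₂ ∈ (M + N - 1/2, M + N + 1/2)`: `N = -M` (as an integer with `(M + N - 1/2, M + N + 1/2)` meeting `(-1/2, 0)`).
   `L`: `θ ρ₂ ∈ (-1, -1/2)`: `M + N = -1`.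
 `d < 0`: `φ ∈ (M + 1/4, M + 3/4)`: `θ ρ₂ ∈ (M + N, M + N + 1)`.  `R`: `M + N = -1`.  `L`: `(0, 1/2)`: `M + N = 0`.
So the two integers `N_R`, `N_L` differ by one, and for every `N` one of them is congruent to `N` modulo `2`.
-/

open scoped Manifold ContDiff Topology
open Set Filter
open Complex (I)

namespace Pool.Agent.STR

open Pool.Agent.RSG (ex)

/-- the clock -/
noncomputable def RLp_s (ρ₁ ρ₂ ρ : ℝ) : ℝ := Real.smoothTransition ((ρ - ρ₁) / (ρ₂ - ρ₁))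

theorem RLp_s_mono {ρ₁ ρ₂ : ℝ} (h : ρ₁ < ρ₂) : Monotone (RLp_s ρ₁ ρ₂) := by
  intro x y hxy
  unfold RLp_s
  apply Real.smoothTransition.monotone
  exact div_le_div_of_nonneg_right (by linarith) (by linarith)

theorem RLp_s_smooth (ρ₁ ρ₂ : ℝ) : ContDiff ℝ ∞ (RLp_s ρ₁ ρ₂) := by
  unfold RLp_s
  exact Real.smoothTransition.contDiff.comp ((contDiff_id.sub contDiff_const).div_const _)

theorem RLp_s_lo {ρ₁ ρ₂ : ℝ} (h : ρ₁ < ρ₂) {ρ : ℝ} (hρ : ρ ≤ ρ₁) : RLp_s ρ₁ ρ₂ ρ = 0 := by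
  unfold RLp_s
  apply Real.smoothTransition.zero_of_nonpos
  exact div_nonpos_of_nonpos_of_nonneg (by linarith) (by linarith)

theorem RLp_s_hi {ρ₁ ρ₂ : ℝ} (h : ρ₁ < ρ₂) {ρ : ℝ} (hρ : ρ₂ ≤ ρ) : RLp_s ρ₁ ρ₂ ρ = 1 := by
  unfold RLp_s
  apply Real.smoothTransition.one_of_one_le
  rw [le_div_iff₀ (by linarith)]
  linarith

theorem RLp_s_mem (ρ₁ ρ₂ ρ : ℝ) : 0 ≤ RLp_s ρ₁ ρ₂ ρ ∧ RLp_s ρ₁ ρ₂ ρ ≤ 1 :=
  ⟨Real.smoothTransition.nonneg _, Real.smoothTransition.le_one _⟩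

/-- the straight line: `c = 0` below, `c = 4` above -/
noncomputable def RLp_D (ρ₁ ρ₂ κ d e c ρ : ℝ) : ℂ :=
  (((-κ + 2 * κ * RLp_s ρ₁ ρ₂ ρ - e * (-κ + c * κ * RLp_s ρ₁ ρ₂ ρ)) / d : ℝ) : ℂ) +
    ((-κ + c * κ * RLp_s ρ₁ ρ₂ ρ : ℝ) : ℂ) * I

theorem RLp_re (ρ₁ ρ₂ κ d e c ρ : ℝ) : (RLp_D ρ₁ ρ₂ κ d e c ρ).re =
    (-κ + 2 * κ * RLp_s ρ₁ ρ₂ ρ - e * (-κ + c * κ * RLp_s ρ₁ ρ₂ ρ)) / d := by
  unfold RLp_D
  rw [Complex.add_re, Complex.ofReal_re, Complex.re_ofReal_mul, Complex.I_re, mul_zero, add_zero]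

theorem RLp_im (ρ₁ ρ₂ κ d e c ρ : ℝ) : (RLp_D ρ₁ ρ₂ κ d e c ρ).im = -κ + c * κ * RLp_s ρ₁ ρ₂ ρ := by
  unfold RLp_D
  rw [Complex.add_im, Complex.ofReal_im, Complex.im_ofReal_mul, Complex.I_im, mul_one, zero_add]

theorem RLp_f (ρ₁ ρ₂ κ : ℝ) {d : ℝ} (hd : d ≠ 0) (e c ρ : ℝ) :
    d * (RLp_D ρ₁ ρ₂ κ d e c ρ).re + e * (RLp_D ρ₁ ρ₂ κ d e c ρ).im = -κ + 2 * κ * RLp_s ρ₁ ρ₂ ρ := by
  rw [RLp_re, RLp_im, mul_div_cancel₀ _ hd]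
  ring

theorem RLp_smooth (ρ₁ ρ₂ κ d e c : ℝ) : ContDiff ℝ ∞ (RLp_D ρ₁ ρ₂ κ d e c) := by
  have hs := RLp_s_smooth ρ₁ ρ₂
  have h1 : ContDiff ℝ ∞ (fun ρ => (-κ + 2 * κ * RLp_s ρ₁ ρ₂ ρ - e * (-κ + c * κ * RLp_s ρ₁ ρ₂ ρ)) / d) :=
    ((contDiff_const.add (contDiff_const.mul hs)).sub
      (contDiff_const.mul (contDiff_const.add (contDiff_const.mul hs)))).div_const _
  have h2 : ContDiff ℝ ∞ (fun ρ => -κ + c * κ * RLp_s ρ₁ ρ₂ ρ) :=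
    contDiff_const.add (contDiff_const.mul hs)
  exact (Complex.ofRealCLM.contDiff.comp h1).add ((Complex.ofRealCLM.contDiff.comp h2).mul contDiff_const)

theorem RLp_pcrv {ρ₁ ρ₂ : ℝ} (hρ : ρ₁ < ρ₂) {d e : ℤ} (hd : d ≠ 0) {κ c : ℝ} (hκ : 0 < κ)
    (hκ' : κ * (4 * (|(e : ℝ)| + 2)) * (|(d : ℝ)| + |(e : ℝ)| + 1) ≤ 1) (hc : c = 0 ∨ c = 4) :
    PCrv ρ₁ ρ₂ d e (RLp_D ρ₁ ρ₂ κ d e c) := by
  have hd' : (d : ℝ) ≠ 0 := by exact_mod_cast hd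
  have hd1 : 1 ≤ |(d : ℝ)| := by
    have : 1 ≤ |d| := Int.one_le_abs hd
    exact_mod_cast this
  have hC : 0 < |(d : ℝ)| + |(e : ℝ)| + 1 := by positivity
  have hf : ∀ ρ, |(-κ + 2 * κ * RLp_s ρ₁ ρ₂ ρ)| ≤ κ := by
    intro ρ
    obtain ⟨s0, s1⟩ := RLp_s_mem ρ₁ ρ₂ ρ
    rw [abs_le]
    constructor <;> nlinarith
  have hY : ∀ ρ, |(-κ + c * κ * RLp_s ρ₁ ρ₂ ρ)| ≤ 3 * κ := by
    intro ρ
    obtain ⟨s0, s1⟩ := RLp_s_mem ρ₁ ρ₂ ρ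
    rw [abs_le]
    rcases hc with rfl | rfl
    · constructor <;> linarith
    · constructor <;> nlinarith
  refine ⟨⟨RLp_smooth _ _ _ _ _ _, ?_, ?_, ?_⟩, ?_, ?_, ?_⟩
  · intro ρ h0
    have h1 := RLp_f ρ₁ ρ₂ κ hd' e c ρ
    have h2 := RLp_im ρ₁ ρ₂ κ d e c ρ
    rw [h0] at h1 h2
    rw [Complex.zero_im] at h1 h2
    rw [Complex.zero_re, mul_zero, mul_zero, add_zero] at h1
    have h3 : RLp_s ρ₁ ρ₂ ρ = 1 / 2 := by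
      have : κ * (2 * RLp_s ρ₁ ρ₂ ρ - 1) = 0 := by linarith
      rcases mul_eq_zero.1 this with h | h
      · exact absurd h hκ.ne'
      · linarith
    rw [h3] at h2
    rcases hc with rfl | rfl
    · linarith
    · linarith
  · intro ρ hρ1
    unfold RLp_D
    rw [RLp_s_lo hρ hρ1, RLp_s_lo hρ le_rfl]
  · intro ρ hρ2
    unfold RLp_D
    rw [RLp_s_hi hρ hρ2, RLp_s_hi hρ le_rfl]
  · intro ρ
    have h1 : ‖RLp_D ρ₁ ρ₂ κ d e c ρ‖ ≤ |(RLp_D ρ₁ ρ₂ κ d e c ρ).re| + |(RLp_D ρ₁ ρ₂ κ d e c ρ).im| :=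
      Complex.norm_le_abs_re_add_abs_im _
    rw [RLp_re, RLp_im] at h1
    have h2 : |(-κ + 2 * κ * RLp_s ρ₁ ρ₂ ρ - e * (-κ + c * κ * RLp_s ρ₁ ρ₂ ρ)) / d| ≤
        κ + |(e : ℝ)| * (3 * κ) := by
      rw [abs_div]
      refine (div_le_self (abs_nonneg _) hd1).trans ?_
      refine (abs_sub _ _).trans ?_
      rw [abs_mul]
      exact add_le_add (hf ρ) (mul_le_mul_of_nonneg_left (hY ρ) (abs_nonneg _))
    have h3 : ‖RLp_D ρ₁ ρ₂ κ d e c ρ‖ ≤ κ + |(e : ℝ)| * (3 * κ) + 3 * κ := h1.trans (add_le_add h2 (hY ρ))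
    have h4 : κ + |(e : ℝ)| * (3 * κ) + 3 * κ < κ * (4 * (|(e : ℝ)| + 2)) := by
      have := abs_nonneg (e : ℝ)
      nlinarith
    push_cast
    calc ‖RLp_D ρ₁ ρ₂ κ d e c ρ‖ * (|(d : ℝ)| + |(e : ℝ)| + 1)
        < κ * (4 * (|(e : ℝ)| + 2)) * (|(d : ℝ)| + |(e : ℝ)| + 1) :=
          mul_lt_mul_of_pos_right (h3.trans_lt h4) hC
      _ ≤ 1 := hκ'
  · rw [RLp_im, RLp_s_lo hρ le_rfl]
    linarith
  · rw [RLp_f _ _ _ hd', RLp_s_hi hρ le_rfl]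
    linarith

/-- an angle cannot leave the half plane -/
theorem RLp_stay {ψ : ℝ → ℝ} (hψ : Continuous ψ) {c a : ℝ} (h0 : |ψ a - c| ≤ 1 / 4) {x : ℝ}
    (h : ∀ y ∈ uIcc a x, 0 ≤ Real.cos (2 * Real.pi * (ψ y - c))) : |ψ x - c| ≤ 1 / 4 := by
  by_contra hx
  push Not at hx
  have hcont : ContinuousOn (fun y => |ψ y - c|) (uIcc a x) := (hψ.sub continuous_const).abs.continuousOn
  have hIVT := intermediate_value_uIcc hcont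
  obtain ⟨t, ht1, ht2, ht3⟩ : ∃ t : ℝ, 1 / 4 < t ∧ t ≤ |ψ x - c| ∧ t ≤ 3 / 8 :=
    ⟨min |ψ x - c| (3 / 8), lt_min hx (by norm_num), min_le_left _ _, min_le_right _ _⟩
  obtain ⟨y, hy, hyt⟩ := hIVT (show t ∈ uIcc (|ψ a - c|) (|ψ x - c|) by
    rw [uIcc_of_le (by linarith)]
    exact ⟨by linarith, ht2⟩)
  have h1 := h y hy
  have h2 : Real.cos (2 * Real.pi * (ψ y - c)) = Real.cos (2 * Real.pi * t) := by
    have hyt' : |ψ y - c| = t := hyt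
    rw [← hyt', ← Real.cos_abs, abs_mul, abs_of_pos (by positivity : (0 : ℝ) < 2 * Real.pi)]
  have h3 : Real.cos (2 * Real.pi * t) < 0 := by
    apply Real.cos_neg_of_pi_div_two_lt_of_lt
    · nlinarith [Real.pi_pos]
    · nlinarith [Real.pi_pos]
  rw [h2] at h1
  linarith

/-- the form in polar coordinates -/
theorem RLp_polar {d e R φ : ℝ} (h1 : d = R * Real.cos (2 * Real.pi * φ))
    (h2 : e = R * Real.sin (2 * Real.pi * φ)) {z : ℂ} {θ : ℝ} (hz : z = ‖z‖ * ex θ) :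
    d * z.re + e * z.im = R * ‖z‖ * Real.cos (2 * Real.pi * (θ - φ)) := by
  have hre : z.re = ‖z‖ * Real.cos (2 * Real.pi * θ) := by
    conv_lhs => rw [hz]
    rw [Complex.re_ofReal_mul, Pool.Agent.RSG.ex_re]
  have him : z.im = ‖z‖ * Real.sin (2 * Real.pi * θ) := by
    conv_lhs => rw [hz]
    rw [Complex.im_ofReal_mul, Pool.Agent.RSG.ex_im]
  rw [hre, him, h1, h2, mul_sub, Real.cos_sub]
  ring

/-- the data of one passage -/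
theorem RLp_one {ρ₁ ρ₂ : ℝ} (hρ : ρ₁ < ρ₂) {d e : ℤ} (hd : d ≠ 0) {R φ : ℝ} (hR : 0 < R)
    (h1 : (d : ℝ) = R * Real.cos (2 * Real.pi * φ)) (h2 : (e : ℝ) = R * Real.sin (2 * Real.pi * φ))
    {κ c : ℝ} (hκ : 0 < κ) (hκ' : κ * (4 * (|(e : ℝ)| + 2)) * (|(d : ℝ)| + |(e : ℝ)| + 1) ≤ 1)
    (hc : c = 0 ∨ c = 4) {ρm : ℝ} (hm : ρm ∈ Icc ρ₁ ρ₂) (hm' : RLp_s ρ₁ ρ₂ ρm = 1 / 2) :
    ∃ (θ : ℝ → ℝ) (N : ℤ), ContDiff ℝ ∞ θ ∧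
      (∀ ρ, RLp_D ρ₁ ρ₂ κ d e c ρ = ‖RLp_D ρ₁ ρ₂ κ d e c ρ‖ * ex (θ ρ)) ∧
      -(1 / 2) < θ ρ₁ ∧ θ ρ₁ < 0 ∧ |θ ρ₂ - φ - N| < 1 / 4 ∧ |θ ρm - φ - N| ≤ 1 / 4 ∧
      ∀ M : ℤ, |θ ρ₁ - (φ + 1 / 2) - M| ≤ 1 / 4 → |θ ρm - (φ + 1 / 2) - M| ≤ 1 / 4 := by
  have hd' : (d : ℝ) ≠ 0 := by exact_mod_cast hd
  have hP := RLp_pcrv (c := c) hρ hd hκ hκ' hc
  obtain ⟨θ, hθ, eθ, t1, t2⟩ := polar_inn hP.crv.smooth hP.crv.ne hP.inn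
  obtain ⟨N, hN⟩ := polar_out hR h1 h2 (eθ ρ₂) hP.out
  have hpos : ∀ ρ, 0 < R * ‖RLp_D ρ₁ ρ₂ κ d e c ρ‖ := fun ρ =>
    mul_pos hR (norm_pos_iff.2 (hP.crv.ne ρ))
  have hfr : ∀ ρ, -κ + 2 * κ * RLp_s ρ₁ ρ₂ ρ =
      R * ‖RLp_D ρ₁ ρ₂ κ d e c ρ‖ * Real.cos (2 * Real.pi * (θ ρ - φ)) := by
    intro ρ
    rw [← RLp_f ρ₁ ρ₂ κ hd' e c ρ]
    exact RLp_polar h1 h2 (eθ ρ)
  refine ⟨θ, N, hθ, eθ, t1, t2, hN, ?_, ?_⟩
  · have := RLp_stay (ψ := θ) hθ.continuous (c := φ + N) (a := ρ₂) (x := ρm)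
      (by rw [← sub_sub]; exact hN.le) (by
        intro y hy
        rw [uIcc_of_ge hm.2] at hy
        have h3 : 1 / 2 ≤ RLp_s ρ₁ ρ₂ y := by
          rw [← hm']
          exact RLp_s_mono hρ hy.1
        have h4 : 0 ≤ -κ + 2 * κ * RLp_s ρ₁ ρ₂ y := by nlinarith
        rw [hfr] at h4
        have h5 : 0 ≤ Real.cos (2 * Real.pi * (θ y - φ)) := nonneg_of_mul_nonneg_right h4 (hpos y)
        have h6 : 2 * Real.pi * (θ y - (φ + N)) = 2 * Real.pi * (θ y - φ) - (N : ℤ) * (2 * Real.pi) := by ring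
        rw [h6, Real.cos_sub_int_mul_two_pi]
        exact h5)
    rw [← sub_sub] at this
    exact this
  · intro M hM
    have := RLp_stay (ψ := θ) hθ.continuous (c := φ + 1 / 2 + M) (a := ρ₁) (x := ρm)
      (by rw [← sub_sub]; exact hM) (by
        intro y hy
        rw [uIcc_of_le hm.1] at hy
        have h3 : RLp_s ρ₁ ρ₂ y ≤ 1 / 2 := by
          rw [← hm']
          exact RLp_s_mono hρ hy.2
        have h4 : -κ + 2 * κ * RLp_s ρ₁ ρ₂ y ≤ 0 := by nlinarith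
        rw [hfr] at h4
        have h5 : Real.cos (2 * Real.pi * (θ y - φ)) ≤ 0 := by
          by_contra hcon
          push Not at hcon
          have := mul_pos (hpos y) hcon
          linarith
        have h6 : 2 * Real.pi * (θ y - (φ + 1 / 2 + M)) =
            2 * Real.pi * (θ y - φ) - Real.pi - (M : ℤ) * (2 * Real.pi) := by ring
        rw [h6, Real.cos_sub_int_mul_two_pi, Real.cos_sub_pi]
        linarith)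
    rw [← sub_sub] at this
    exact this

/-- **One of the two straight passages has the right parity.** -/
theorem passage {ρ₁ ρ₂ : ℝ} (hρ : ρ₁ < ρ₂) {d e : ℤ} (hd : d ≠ 0) {R φ : ℝ} (hR : 0 < R)
    (h1 : (d : ℝ) = R * Real.cos (2 * Real.pi * φ)) (h2 : (e : ℝ) = R * Real.sin (2 * Real.pi * φ)) (N : ℤ) :
    ∃ (D : ℝ → ℂ) (θ : ℝ → ℝ) (N' : ℤ), PCrv ρ₁ ρ₂ d e D ∧ ContDiff ℝ ∞ θ ∧ (∀ ρ, D ρ = ‖D ρ‖ * ex (θ ρ)) ∧
      -(1 / 2) < θ ρ₁ ∧ θ ρ₁ < 0 ∧ |θ ρ₂ - φ - N'| < 1 / 4 ∧ Even (N' - N) ∧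
      Monotone fun ρ => d * (D ρ).re + e * (D ρ).im := by
  have hd' : (d : ℝ) ≠ 0 := by exact_mod_cast hd
  obtain ⟨κ, hκ, hκ'⟩ : ∃ κ : ℝ, 0 < κ ∧
      κ * (4 * (|(e : ℝ)| + 2)) * (|(d : ℝ)| + |(e : ℝ)| + 1) ≤ 1 := by
    have hC : 0 < 4 * (|(e : ℝ)| + 2) * (|(d : ℝ)| + |(e : ℝ)| + 1) := by positivity
    refine ⟨(4 * (|(e : ℝ)| + 2) * (|(d : ℝ)| + |(e : ℝ)| + 1))⁻¹, inv_pos.2 hC, ?_⟩
    rw [mul_assoc, inv_mul_cancel₀ hC.ne']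
  -- the middle
  obtain ⟨ρm, hm, hm'⟩ : ∃ ρm ∈ Icc ρ₁ ρ₂, RLp_s ρ₁ ρ₂ ρm = 1 / 2 := by
    have hIVT := intermediate_value_Icc hρ.le (RLp_s_smooth ρ₁ ρ₂).continuous.continuousOn
    rw [RLp_s_lo hρ le_rfl, RLp_s_hi hρ le_rfl] at hIVT
    obtain ⟨x, hx, hx'⟩ := hIVT (show (1 / 2 : ℝ) ∈ Icc (0 : ℝ) 1 by constructor <;> norm_num)
    exact ⟨x, hx, hx'⟩
  obtain ⟨θa, Na, a1, a2, a3, a4, a5, a6, a7⟩ :=
    RLp_one (c := 0) hρ hd hR h1 h2 hκ hκ' (Or.inl rfl) hm hm'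
  obtain ⟨θb, Nb, b1, b2, b3, b4, b5, b6, b7⟩ :=
    RLp_one (c := 4) hρ hd hR h1 h2 hκ hκ' (Or.inr rfl) hm hm'
  have hmono : ∀ c : ℝ, Monotone fun ρ => d * (RLp_D ρ₁ ρ₂ κ d e c ρ).re + e * (RLp_D ρ₁ ρ₂ κ d e c ρ).im := by
    intro c x y hxy
    show d * (RLp_D ρ₁ ρ₂ κ d e c x).re + e * (RLp_D ρ₁ ρ₂ κ d e c x).im ≤
      d * (RLp_D ρ₁ ρ₂ κ d e c y).re + e * (RLp_D ρ₁ ρ₂ κ d e c y).im
    rw [RLp_f _ _ _ hd', RLp_f _ _ _ hd']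
    have := RLp_s_mono hρ hxy
    nlinarith
  -- the common starting angle
  have hstart : θa ρ₁ = θb ρ₁ := by
    have e1 : RLp_D ρ₁ ρ₂ κ d e 0 ρ₁ = RLp_D ρ₁ ρ₂ κ d e 4 ρ₁ := by
      unfold RLp_D
      rw [RLp_s_lo hρ le_rfl]
      simp
    have hP := RLp_pcrv (c := 0) hρ hd hκ hκ' (Or.inl rfl)
    have hn : ((‖RLp_D ρ₁ ρ₂ κ d e 0 ρ₁‖ : ℝ) : ℂ) ≠ 0 := by
      rw [Complex.ofReal_ne_zero]
      exact norm_ne_zero_iff.2 (hP.crv.ne ρ₁)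
    have e2 := a2 ρ₁
    have e3 := b2 ρ₁
    rw [← e1] at e3
    have e4 : ex (θa ρ₁) = ex (θb ρ₁) := by
      apply mul_left_cancel₀ hn
      rw [← e2, ← e3]
    obtain ⟨m, hm⟩ := Pool.Agent.RSG.ex_eq_iff.1 e4
    have h3 : (m : ℝ) < 1 := by linarith
    have h4 : (-1 : ℝ) < m := by linarith
    have h5 : m < 1 := by exact_mod_cast h3
    have h6 : -1 < m := by exact_mod_cast h4
    have h7 : m = 0 := by omega
    rw [hm, h7]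
    simp
  -- the opposite points
  obtain ⟨m, hopp⟩ : ∃ m : ℤ, θb ρm = θa ρm + 1 / 2 + m := by
    have e1 : RLp_D ρ₁ ρ₂ κ d e 4 ρm = - RLp_D ρ₁ ρ₂ κ d e 0 ρm := by
      unfold RLp_D
      rw [hm']
      push_cast
      ring
    have hP := RLp_pcrv (c := 0) hρ hd hκ hκ' (Or.inl rfl)
    have hn : ((‖RLp_D ρ₁ ρ₂ κ d e 0 ρm‖ : ℝ) : ℂ) ≠ 0 := by
      rw [Complex.ofReal_ne_zero]
      exact norm_ne_zero_iff.2 (hP.crv.ne ρm)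
    have e2 := a2 ρm
    have e3 := b2 ρm
    rw [e1, norm_neg] at e3
    have e4 : ex (θa ρm + 1 / 2) = ex (θb ρm) := by
      rw [Pool.Agent.RSG.ex_add, Pool.Agent.RSG.ex_half]
      apply mul_left_cancel₀ hn
      rw [← e3]
      conv_rhs => rw [e2]
      ring
    exact Pool.Agent.RSG.ex_eq_iff.1 e4
  -- the starting half plane
  obtain ⟨M, hM⟩ : ∃ M : ℤ, |θa ρ₁ - (φ + 1 / 2) - M| < 1 / 4 := by
    refine polar_out (d := -d) (e := -e) hR ?_ ?_ (a2 ρ₁) ?_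
    · rw [h1, show 2 * Real.pi * (φ + 1 / 2) = 2 * Real.pi * φ + Real.pi by ring, Real.cos_add_pi]
      ring
    · rw [h2, show 2 * Real.pi * (φ + 1 / 2) = 2 * Real.pi * φ + Real.pi by ring, Real.sin_add_pi]
      ring
    · have h3 := RLp_f ρ₁ ρ₂ κ hd' e 0 ρ₁
      rw [RLp_s_lo hρ le_rfl] at h3
      linarith
  have ha := a7 M hM.le
  have hb := b7 M (by rw [← hstart]; exact hM.le)
  have hpar : Na = M ∧ Nb = M + 1 ∨ Na = M + 1 ∧ Nb = M := by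
    rw [hopp] at b6 hb
    rw [abs_le] at ha hb a6 b6
    have hm1 : (m : ℝ) ≤ 0 := by linarith [ha.1, hb.2]
    have hm2 : (-1 : ℝ) ≤ m := by linarith [ha.2, hb.1]
    have hm3 : m ≤ 0 := by exact_mod_cast hm1
    have hm4 : -1 ≤ m := by exact_mod_cast hm2
    have c1 : (Na : ℝ) < M + 2 := by linarith [ha.2, a6.1]
    have c2 : (M : ℝ) - 1 < Na := by linarith [ha.1, a6.2]
    have c3 : (Nb : ℝ) < M + 2 := by linarith [hb.2, b6.1]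
    have c4 : (M : ℝ) - 1 < Nb := by linarith [hb.1, b6.2]
    have c1' : Na < M + 2 := by exact_mod_cast c1
    have c2' : M - 1 < Na := by exact_mod_cast c2
    have c3' : Nb < M + 2 := by exact_mod_cast c3
    have c4' : M - 1 < Nb := by exact_mod_cast c4
    rcases (by omega : m = 0 ∨ m = -1) with rfl | rfl
    · left
      push_cast at hb b6
      have c5 : (Na : ℝ) < M + 1 := by linarith [a6.1, hb.2]
      have c6 : (M : ℝ) < Nb := by linarith [b6.2, ha.1]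
      have c5' : Na < M + 1 := by exact_mod_cast c5
      have c6' : M < Nb := by exact_mod_cast c6
      omega
    · right
      push_cast at hb b6
      have c5 : (Nb : ℝ) < M + 1 := by linarith [b6.1, ha.2]
      have c6 : (M : ℝ) < Na := by linarith [a6.2, hb.1]
      have c5' : Nb < M + 1 := by exact_mod_cast c5
      have c6' : M < Na := by exact_mod_cast c6
      omega
  by_cases hev : Even (Na - N)
  · exact ⟨_, θa, Na, RLp_pcrv hρ hd hκ hκ' (Or.inl rfl), a1, a2, a3, a4, a5, hev, hmono 0⟩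
  · refine ⟨_, θb, Nb, RLp_pcrv hρ hd hκ hκ' (Or.inr rfl), b1, b2, b3, b4, b5, ?_, hmono 4⟩
    rw [Int.not_even_iff_odd] at hev
    obtain ⟨w, hw⟩ := hev
    rcases hpar with ⟨h3, h4⟩ | ⟨h3, h4⟩
    · exact ⟨w + 1, by omega⟩
    · exact ⟨w, by omega⟩

end Pool.Agent.STR
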