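import Pool.Agent.STR.Sld
import Pool.Agent.STR.Cls
import Pool.Agent.STR.RLp
import Pool.Agent.GLB.Fin

/-!
# STR/SMn: the star path is equivalent to a monotone path, `ε = 1`   (difficulty 2)

* `pst_mono`: `f (pst ρ - O) = (1 - g₁) f₀ + (g₁ - g₃) f (D ρ) + g₃`, `f₀ = f (0 - O) = - (d (k + 1/2) + e) ≤ -1` (weights: `f (pst - O) = (1 - g₁) f (- O) + (g₁ - g₃) f (D) + g₃ f (s₁ - O)`).  Monotone on `ρ ≤ ρ₁` (`g₃ = 0`,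
  `f (D ρ) = f (D ρ₁) > -1 ≥ f₀`, `g₁` monotone), on `[ρ₁, ρ₂]` (`f (D)`), on `ρ ≥ ρ₂` (`(1 - g₃) f (D ρ₂) + g₃`, `f (D ρ₂) < 1`); glue (`MonotoneOn` on `Iic`, `Icc`, `Ici`: `MonotoneOn.Iic_union_Ici` or by cases).
* `star_pos`: `u = pst (m₁ - 1) s₁ .. (shr m₁ D)`.  `stw ~ up (pl ∘ stw)` (`GLB.gcar_pl`: see GLB/Gau, KSm: the statement that a global path is equivalent to `up` of its planar path) `= up u` (`stw_pl`) `~ up n₁' (pst k' ..)` (`sld`), with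
  `κ` such that `d (k' + 1/2) + e ≥ 1`, `k' = m₁ - 1 + κ` (`d ≠ 0`: `κ` large of the sign of `d`).  `(d, e) = R (cos 2πφ, sin 2πφ)`: `R = ‖d + i e‖ > 0`, `φ = arg / 2π` (`RSG.ex_arg`).  `θ` from `polar_inn`, `N` from `polar_out`, the monotone
  curve `D''` from `passage`, `cls`.  The path `w' = up n₁' (pst k' .. D'')`: `GPath` by `up_gpath`; `ht2 v (up .. u ρ) = d (1/2 + X) - v₁ q Y` (`q = m₃`) is `f (pst)` plus a constant: `Mono4` (third alternative).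
-/

open scoped Manifold ContDiff Topology
open Set Filter
open Complex (I)

namespace Pool.Agent.STR

open Pool.Agent.PTH
open Pool.Agent.GLB
open Pool.Agent.RSG (ex)

universe u

variable {ρ₁ ρ₂ : ℝ} {g₀ g₁ g₃ : ℝ → ℝ} {D : ℝ → ℂ} {k d e : ℤ} {s₁ : ℝ × ℝ}

theorem SMn_f (hp : PData k d e s₁) (D : ℝ → ℂ) (ρ : ℝ) :
    (d : ℝ) * (pst k s₁ g₁ g₃ D ρ).1 + e * (pst k s₁ g₁ g₃ D ρ).2 =
      (g₁ ρ - g₃ ρ) * (d * ((k : ℝ) + 1 / 2) + e + ((d : ℝ) * (D ρ).re + e * (D ρ).im)) +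
        g₃ ρ * (d * ((k : ℝ) + 1 / 2) + e + 1) := by
  have h1 := hp.f1
  have e1 : (pst k s₁ g₁ g₃ D ρ).1 = (g₁ ρ - g₃ ρ) * ((k : ℝ) + 1 / 2 + (D ρ).re) + g₃ ρ * s₁.1 := rfl
  have e2 : (pst k s₁ g₁ g₃ D ρ).2 = (g₁ ρ - g₃ ρ) * (1 + (D ρ).im) + g₃ ρ * s₁.2 := rfl
  rw [e1, e2]
  linear_combination g₃ ρ * h1

theorem pst_mono (hst : Steps ρ₁ ρ₂ g₁ g₃) (hD : PCrv ρ₁ ρ₂ d e D) (hp : PData k d e s₁)
    (hm : Monotone fun ρ => (d : ℝ) * (D ρ).re + e * (D ρ).im) (h0 : 1 ≤ d * ((k : ℝ) + 1 / 2) + e) :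
    Monotone fun ρ => (d : ℝ) * (pst k s₁ g₁ g₃ D ρ).1 + e * (pst k s₁ g₁ g₃ D ρ).2 := by
  have b1 := (abs_lt.1 (pcrv_f hD ρ₁)).1
  have b2 := (abs_lt.1 (pcrv_f hD ρ₂)).2
  set c : ℝ := d * ((k : ℝ) + 1 / 2) + e with hc
  set F : ℝ → ℝ := fun ρ => (d : ℝ) * (D ρ).re + e * (D ρ).im with hF
  have hb1 : -1 < F ρ₁ := b1
  have hb2 : F ρ₂ < 1 := b2
  have key : (fun ρ => (d : ℝ) * (pst k s₁ g₁ g₃ D ρ).1 + e * (pst k s₁ g₁ g₃ D ρ).2) =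
      fun ρ => (g₁ ρ * (c + F ρ₁) + (F ρ - F ρ₁)) + g₃ ρ * (1 - F ρ₂) := by
    funext ρ
    rw [SMn_f hp D ρ]
    show (g₁ ρ - g₃ ρ) * (c + F ρ) + g₃ ρ * (c + 1) = _
    rcases le_total ρ ρ₁ with h | h
    · have e1 : F ρ = F ρ₁ := by
        show (d : ℝ) * (D ρ).re + e * (D ρ).im = (d : ℝ) * (D ρ₁).re + e * (D ρ₁).im
        rw [hD.crv.lo ρ h]
      rw [e1, hst.zero ρ (h.trans hst.lt.le)]
      ring
    · rw [hst.one ρ h]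
      rcases le_total ρ ρ₂ with h' | h'
      · rw [hst.zero ρ h']
        ring
      · have e1 : F ρ = F ρ₂ := by
          show (d : ℝ) * (D ρ).re + e * (D ρ).im = (d : ℝ) * (D ρ₂).re + e * (D ρ₂).im
          rw [hD.crv.hi ρ h']
        rw [e1]
        ring
  rw [key]
  intro x y hxy
  have h1 := mul_le_mul_of_nonneg_right (hst.mono₁ hxy) (by linarith : (0 : ℝ) ≤ c + F ρ₁)
  have h2 : F x ≤ F y := hm hxy
  have h3 := mul_le_mul_of_nonneg_right (hst.mono₃ hxy) (by linarith : (0 : ℝ) ≤ 1 - F ρ₂)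
  show (g₁ x * (c + F ρ₁) + (F x - F ρ₁)) + g₃ x * (1 - F ρ₂) ≤
    (g₁ y * (c + F ρ₁) + (F y - F ρ₁)) + g₃ y * (1 - F ρ₂)
  linarith

theorem SMn_ht2 (v : ℤ × ℤ × ℤ) (p q : ℤ) (x : ℝ × ℝ) (c : ℝ) :
    ht2 v (LL v p q x c) = (v.2.2 : ℝ) / 2 + (v.2.2 * x.1 + ((-(v.1 * q) : ℤ) : ℝ) * x.2) := by
  unfold ht2 LL
  push_cast
  ring

theorem star_pos (hΓ : CSW.WIn Gam.{u}) {v m m' : ℤ × ℤ × ℤ} (hv : VGood v) (hst : Steps ρ₁ ρ₂ g₁ g₃)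
    (h : Star v m m' 1 ρ₁ ρ₂ D) (hg : ContDiff ℝ ∞ g₀) (hg0 : ∃ ε : ℝ, 0 < ε ∧ ∀ ρ ≤ ε, g₀ ρ = 0) {j : ℤ}
    (hg1 : ∃ ε : ℝ, 0 < ε ∧ ∀ ρ, 1 - ε ≤ ρ → g₀ ρ = j) :
    ∃ (n₁ : ℤ × ℤ × ℤ) (w : ℝ → ℝ × ℝ × ℝ), GPath v 0 n₁ w ∧ Mono4 v w ∧ n₁.2.2 = (ne v m m' j).2.2 ∧
      GEq.{u} v (stw v m m' g₀ g₁ g₃ D) w := by
  have hb : VB v m.2.1 m.2.2 := h.h1
  have hC := stw_pcrv h
  have hp := stw_pdata hv h j
  have hG := stw_gpath hv hst h hg hg0 hg1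
  have hd0 : v.2.2 ≠ 0 := by
    intro h0
    have := hv.odd
    rw [h0] at this
    norm_num at this
  have E1 := gcar_pl.{u} hv hb hG
  have e1 : (fun ρ => pl v m.2.1 m.2.2 (stw v m m' g₀ g₁ g₃ D ρ)) =
      pst (m.1 - 1) (pl v m.2.1 m.2.2 (fin (ne v m m' j))) g₁ g₃ (shr m.1 D) := by
    funext ρ
    exact stw_pl h.h1 j ρ
  rw [e1] at E1
  set d : ℤ := v.2.2 with hd
  set e : ℤ := -(v.1 * m.2.2) with he
  set k : ℤ := m.1 - 1 with hk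
  obtain ⟨M, hM⟩ := exists_nat_ge (1 - (e : ℝ) - d * ((k : ℝ) + 1 / 2))
  have hd2 : (1 : ℝ) ≤ (d : ℝ) * d := by
    have h1 : (1 : ℤ) ≤ d * d := by
      have := mul_self_pos.2 hd0
      omega
    exact_mod_cast h1
  have hM0 : (0 : ℝ) ≤ (M : ℝ) := Nat.cast_nonneg M
  have hκ : 1 ≤ (d : ℝ) * (((k + d * M : ℤ) : ℝ) + 1 / 2) + e := by
    push_cast
    nlinarith [mul_le_mul_of_nonneg_right hd2 hM0]
  have E2 := sld.{u} hΓ hv hb hst hC hp (d * M)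
  have hp' : PData (k + d * M) d e (pl v m.2.1 m.2.2 (fin (ne v m m' j + (d * M, 0, 0)))) := by
    rw [pl_fin_add]
    exact pdata_add hp (d * M)
  set z : ℂ := ⟨(d : ℝ), (e : ℝ)⟩ with hz
  have hz0 : z ≠ 0 := by
    intro h0
    have hre : (d : ℝ) = 0 := congrArg Complex.re h0
    exact hd0 (by exact_mod_cast hre)
  have hR : 0 < ‖z‖ := norm_pos_iff.2 hz0
  have ha : 2 * Real.pi * (Complex.arg z / (2 * Real.pi)) = Complex.arg z := by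
    have := Real.pi_ne_zero
    field_simp
  have h1 : (d : ℝ) = ‖z‖ * Real.cos (2 * Real.pi * (Complex.arg z / (2 * Real.pi))) := by
    rw [ha, Complex.norm_mul_cos_arg]
  have h2 : (e : ℝ) = ‖z‖ * Real.sin (2 * Real.pi * (Complex.arg z / (2 * Real.pi))) := by
    rw [ha, Complex.norm_mul_sin_arg]
  obtain ⟨θ, hθ, eθ, a1, a2⟩ := polar_inn hC.crv.smooth hC.crv.ne hC.inn
  obtain ⟨N, hN⟩ := polar_out hR h1 h2 (eθ ρ₂) hC.out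
  obtain ⟨D', θ', N', hC', hθ', eθ', a1', a2', hN', hev, hmo⟩ := passage hst.lt hd0 hR h1 h2 N
  have E3 := cls.{u} hv hb hst hC hC' hp' hθ hθ' eθ eθ' hR h1 h2 a1 a2 a1' a2' hN hN' hev
  refine ⟨ne v m m' j + (d * M, 0, 0), up v m.2.1 m.2.2 (ne v m m' j + (d * M, 0, 0))
    (pst (k + d * M) (pl v m.2.1 m.2.2 (fin (ne v m m' j + (d * M, 0, 0)))) g₁ g₃ D'), ?_, ?_, ?_,
    (E1.trans E2).trans E3⟩
  · exact up_gpath hb (pst_spath hst hC' hp')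
  · right
    right
    left
    have hmono := pst_mono hst hC' hp' hmo hκ
    intro x y hxy
    have h3 := hmono hxy
    show ht2 v (LL v m.2.1 m.2.2 _ _) ≤ ht2 v (LL v m.2.1 m.2.2 _ _)
    rw [SMn_ht2, SMn_ht2]
    exact add_le_add_right h3 _
  · show (ne v m m' j).2.2 + 0 = (ne v m m' j).2.2
    rw [add_zero]

end Pool.Agent.STR
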