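import Pool.Agent.STR.Defs
import Pool.Agent.STR.PhS
import Pool.Agent.GLB.Cmp
import Pool.Agent.GLB.HomG
import Pool.Agent.GLB.LLm
import Pool.Agent.GLB.V1E
import Pool.Agent.GLB.TCg

/-!
# STR/Slx: sliding the first foot   (difficulty 3)

`sx κ u`: for `ρ < 1/2` the path of the word `xs κ` (from `(0, 0)` to `(κ, 0)` above the row `0`), for `ρ ≥ 1/2` the path `u (2 ρ - 1) + (κ, 0)`.
* `sx_spath`: near `1/2` both formulas are constant `(κ, 0)`: `wpath (xs κ) (2 ρ) = (κ, 0)` for `2 ρ ≥ 3/4` (see PTH/Defs `wpath`, PTH/Bas `wpath_isPath`: `IsPath (wpath L) (sumZ L)`, and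
  `smoothTransition (2 ρ' - 1/2) = 1` for `ρ' ≥ 3/4`; `sumZ (xs κ) = (κ, 0)`), `u (2 ρ - 1) = (0, 0)` for `2 ρ - 1 ≤ ε`.  `avoid`: `Obs` is invariant under integer translations.
* `slide`: `up n₁ (hf u) ~ up (n₁ + (κ, 0, 0)) (sx κ u)`: `GLB.gcar_pathEq` (GLB/Cmp) with `L = []`, `L' = xs κ`, `w = up n₁ (hf u)`, `w' = up (n₁ + (κ,0,0)) (sx κ u)`:
  `PathEq (wpath []) (wpath (xs κ))`: `CSW.WIn.x` (`fx ∈ Gam`, the carrier of `Gam` is `GamF`), so `fx ^ κ = mk (xs κ) ∈ Gam` (`PTH.mk_xs`), and the definition of `GamF` with `L = []` (compare with `GLB.word_eq` and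
  `PTH.mem_GamF_iff'`, used in the same way in GLB/V1E).
  `e`: for `ρ < 1/2`: `hf u ρ = (0, 0) = wpath [] (2ρ)` (`pos [] = 0`), and `smoothTransition (8ρ - 6) = 0`.
  tails: for `ρ ≥ 1/2`: `up (n₁ + (κ,0,0)) (sx κ u) ρ = up n₁ (hf u) ρ + rv (κ, 0, 0)` (`LL_add_int`; `cC (fin (n₁ + (κ,0,0))) = cC (fin n₁)`), as in the proof of `GLB.geq_cmpr` (copy it).
  The end point: `pl (fin (n₁ + (κ, 0, 0))) = pl (fin n₁) + (κ, 0)`.
-/

open scoped Manifold ContDiff Topology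
open Set Filter

namespace Pool.Agent.STR

open Pool.Agent.PTH
open Pool.Agent.GLB

universe u

variable {v : ℤ × ℤ × ℤ} {p q : ℤ} {n₁ : ℤ × ℤ × ℤ}

open Classical in
noncomputable def sx (κ : ℤ) (u : ℝ → ℝ × ℝ) (ρ : ℝ) : ℝ × ℝ :=
  if ρ < 1 / 2 then wpath (xs κ) (2 * ρ) else u (2 * ρ - 1) + ((κ : ℝ), 0)

theorem pl_fin_add (v : ℤ × ℤ × ℤ) (p q : ℤ) (n₁ : ℤ × ℤ × ℤ) (κ : ℤ) :
    pl v p q (fin (n₁ + (κ, 0, 0))) = pl v p q (fin n₁) + ((κ : ℝ), 0) := by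
  have hc : cC p q (fin (n₁ + (κ, 0, 0))) = cC p q (fin n₁) := by
    unfold cC fin
    simp
  refine Prod.ext ?_ ?_
  · show cX v p q _ = cX v p q _ + (κ : ℝ)
    unfold cX
    rw [hc]
    unfold fin
    simp
    ring
  · show ht1 v _ = ht1 v _ + 0
    unfold ht1 fin
    simp

theorem sx_eq {s₁ : ℝ × ℝ} {u : ℝ → ℝ × ℝ} (hu : SPath (0, 0) s₁ u) (κ : ℤ) (ρ : ℝ) :
    sx κ u ρ = wpath (xs κ) (2 * ρ) + u (2 * ρ - 1) := by
  obtain ⟨ε, hε, h1⟩ := hu.start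
  obtain ⟨δ, hδ, h2⟩ := (wpath_isPath (xs κ)).stop
  unfold sx
  split_ifs with h
  · rw [h1 (2 * ρ - 1) (by linarith)]
    exact (add_zero _).symm
  · rw [h2 (2 * ρ) (by linarith), sumZ_xs, add_comm]
    simp

theorem obs_shift {x : ℝ × ℝ} {κ : ℤ} (h : Obs (x + ((κ : ℝ), 0))) : Obs x := by
  obtain ⟨i, l, hil⟩ := h
  refine ⟨i - κ, l, ?_⟩
  have e1 := congrArg Prod.fst hil
  have e2 := congrArg Prod.snd hil
  simp only [Prod.fst_add, Prod.snd_add, add_zero] at e1 e2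
  refine Prod.ext ?_ e2
  push_cast
  linarith

theorem sx_spath {s₁ : ℝ × ℝ} {u : ℝ → ℝ × ℝ} (hu : SPath (0, 0) s₁ u) (κ : ℤ) :
    SPath (0, 0) (s₁ + ((κ : ℝ), 0)) (sx κ u) := by
  obtain ⟨ε, hε, h1⟩ := hu.start
  obtain ⟨ε', hε', h1'⟩ := hu.stop
  have hw := wpath_isPath (xs κ)
  obtain ⟨δ, hδ, h2⟩ := hw.stop
  obtain ⟨δ', hδ', h3⟩ := hw.start
  refine ⟨?_, ⟨min (δ' / 2) (1 / 2), lt_min (by linarith) (by norm_num), ?_⟩, ⟨min (ε' / 2) (1 / 2), lt_min (by linarith) (by norm_num), ?_⟩, ?_⟩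
  · have e : sx κ u = fun ρ => wpath (xs κ) (2 * ρ) + u (2 * ρ - 1) := funext (sx_eq hu κ)
    rw [e]
    exact (hw.smooth.comp (contDiff_const.mul contDiff_id)).add
      (hu.smooth.comp ((contDiff_const.mul contDiff_id).sub contDiff_const))
  · intro ρ hρ
    have a1 := hρ.trans (min_le_left _ _)
    have a2 := hρ.trans (min_le_right _ _)
    rw [sx_eq hu, h3 (2 * ρ) (by linarith), h1 (2 * ρ - 1) (by linarith)]
    simp
  · intro ρ hρ
    have a1 := min_le_left (ε' / 2) (1 / 2)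
    have a2 := min_le_right (ε' / 2) (1 / 2)
    rw [sx_eq hu, h2 (2 * ρ) (by linarith), h1' (2 * ρ - 1) (by linarith), sumZ_xs, add_comm]
    simp
  · intro ρ ho
    unfold sx at ho
    split_ifs at ho with h
    · exact hw.avoid _ ho
    · exact hu.avoid _ (obs_shift ho)

/-- second coordinate of the first half -/
theorem sx_lo {u : ℝ → ℝ × ℝ} (κ : ℤ) {ρ : ℝ} (h : ρ < 1 / 2) : 0 ≤ (sx κ u ρ).2 ∧ (sx κ u ρ).2 < 1 := by
  unfold sx
  rw [if_pos h]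
  unfold wpath
  obtain ⟨a1, a2⟩ := pos_xs_snd (xs κ) (xs_mem κ) ((xs κ).length * Real.smoothTransition (2 * (2 * ρ) - 1 / 2))
  exact ⟨a1, by linarith⟩

/-- **The foot slides.** -/
theorem slide (hΓ : CSW.WIn Gam.{u}) (hv : VGood v) (hb : VB v p q) {u : ℝ → ℝ × ℝ}
    (hu : SPath (0, 0) (pl v p q (fin n₁)) u) (κ : ℤ) :
    GEq.{u} v (up v p q n₁ (hf u)) (up v p q (n₁ + (κ, 0, 0)) (sx κ u)) := by
  have hx : (FreeGroup.mk (xs κ) : FreeGroup Bool) ∈ Gam.{u} := by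
    have h := Gam.{u}.zpow_mem hΓ.x κ
    rw [← mk_xs] at h
    exact h
  have hpe : PathEq.{u} (wpath (xs κ)) (wpath []) := by
    have h : (FreeGroup.mk (xs κ) : FreeGroup Bool) ∈ GamF.{u} := hx
    have h' := (mem_GamF_iff.{u} _ (xs κ) rfl).1 h []
    rwa [List.append_nil] at h'
  have hu1 : SPath (0, 0) (pl v p q (fin (n₁ + (κ, 0, 0)))) (sx κ u) := by
    rw [pl_fin_add]
    exact sx_spath hu κ
  obtain ⟨ε, hε, h1⟩ := hu.start
  have hc : cC p q (fin (n₁ + (κ, 0, 0))) = cC p q (fin n₁) := by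
    unfold cC fin
    simp
  refine GEq.symm ?_
  refine gcar_pathEq hv hb (up_gpath hb hu1) (up_gpath hb (hf_spath hu)) hpe ?_ ?_ (-κ, 0, 0) ?_
  · intro ρ hρ
    unfold up sx
    rw [if_pos hρ, Real.smoothTransition.zero_of_nonpos (x := 8 * ρ - 6) (by linarith), mul_zero]
  · intro ρ hρ
    unfold up hf
    rw [h1 _ (by linarith), Real.smoothTransition.zero_of_nonpos (x := 8 * ρ - 6) (by linarith), mul_zero]
    rfl
  · intro ρ hρ
    unfold up sx hf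
    rw [if_neg (by linarith), hc]
    have := LL_add_int (v := v) (p := p) (q := q) (u (2 * ρ - 1)) (cC p q (fin n₁) * Real.smoothTransition (8 * ρ - 6)) κ 0 0
    push_cast at this
    rw [add_zero] at this
    rw [this]
    unfold rv
    ext <;> simp

end Pool.Agent.STR
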