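import Pool.Agent.STR.PSt
import Pool.Agent.STR.Slx

/-!
# STR/Sld: sliding the first foot of the planar path   (difficulty 3)

`u = pst k s₁ .. D`, `u' = pst (k + κ) s₁' .. D`, `s₁' = s₁ + (κ, 0)` (`pl_fin_add`), both `SPath`s (`pst_spath`; `PData (k + κ) d e s₁'`: `f (s₁' - O') = f (s₁ - O)`, `Obs` is invariant under integer translations).
`up n₁ u ~ up n₁ (hf u)` (`ph_half`, `hf_spath`, `GLB.hom_gcar`) `~ up n₁' (sx κ u)` (`slide`) `~ up n₁' (hf u')` (`ph_strip'` with `ρ₀ = (1 + ρ₁) / 2`, `sx_spath`) `~ up n₁' u'`.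
`ph_strip'`: for `ρ ≥ (1 + ρ₁)/2`, `2 ρ - 1 ≥ ρ₁`, `g₁ = 1`: `pst k s₁ .. + (κ, 0) = pst (k + κ) s₁' ..` (weights `1 - g₃`, `g₃`).  For `ρ ≤ (1 + ρ₁)/2`: `hf u' ρ = u' (2ρ - 1)`, `2ρ - 1 ≤ ρ₁ < ρ₂`, `g₃ = 0`: second coordinate
`g₁ (1 + im D) ∈ [0, 1)`; `sx κ u ρ`: for `ρ < 1/2` `sx_lo`, for `ρ ≥ 1/2` the second coordinate of `u (2ρ - 1)`, the same.
-/

open scoped Manifold ContDiff Topology
open Set Filter
open Complex (I)

namespace Pool.Agent.STR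

open Pool.Agent.PTH
open Pool.Agent.GLB

universe u

variable {ρ₁ ρ₂ : ℝ} {g₁ g₃ : ℝ → ℝ} {D : ℝ → ℂ} {k d e : ℤ} {v : ℤ × ℤ × ℤ} {p q : ℤ} {n₁ : ℤ × ℤ × ℤ}

theorem pdata_add {s₁ : ℝ × ℝ} (hp : PData k d e s₁) (κ : ℤ) : PData (k + κ) d e (s₁ + ((κ : ℝ), 0)) := by
  refine ⟨hp.d0, ?_, ?_⟩
  · have h := hp.f1
    simp only [Prod.fst_add, Prod.snd_add]
    push_cast
    linarith
  · rintro ⟨m, n, h⟩
    apply hp.obs
    refine ⟨m - κ, n, ?_⟩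
    have h1 := congrArg Prod.fst h
    have h2 := congrArg Prod.snd h
    simp only [Prod.fst_add, Prod.snd_add] at h1 h2
    refine Prod.ext ?_ ?_
    · push_cast
      linarith
    · show s₁.2 = n
      linarith

theorem Sld_lo (hst : Steps ρ₁ ρ₂ g₁ g₃) (hD : PCrv ρ₁ ρ₂ d e D) (k : ℤ) (s₁ : ℝ × ℝ) {y : ℝ} (hy : y ≤ ρ₁) :
    0 ≤ (pst k s₁ g₁ g₃ D y).2 ∧ (pst k s₁ g₁ g₃ D y).2 < 1 := by
  have h3 : g₃ y = 0 := hst.zero y (hy.trans hst.lt.le)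
  have hDy : D y = D ρ₁ := hD.crv.lo y hy
  have hg1 : g₁ y ≤ 1 := by
    rw [← hst.one ρ₁ le_rfl]
    exact hst.mono₁ hy
  have hg0 : 0 ≤ g₁ y := by
    obtain ⟨ε, hε, h0⟩ := hst.start
    rw [← h0 (min y ε) (min_le_right _ _)]
    exact hst.mono₁ (min_le_left _ _)
  have hn : ‖D ρ₁‖ < 1 := by
    have h4 := hD.small ρ₁
    have h5 : (0 : ℝ) ≤ ((|d| : ℤ) : ℝ) := by exact_mod_cast abs_nonneg d
    have h6 : (0 : ℝ) ≤ ((|e| : ℤ) : ℝ) := by exact_mod_cast abs_nonneg e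
    have h7 := norm_nonneg (D ρ₁)
    nlinarith [mul_nonneg h7 h5, mul_nonneg h7 h6]
  have him : -1 < (D ρ₁).im := by
    have h4 := Complex.abs_im_le_norm (D ρ₁)
    have h5 := neg_abs_le (D ρ₁).im
    linarith
  have hin := hD.inn
  have e1 : (pst k s₁ g₁ g₃ D y).2 = g₁ y * (1 + (D ρ₁).im) := by
    simp only [pst, h3, hDy, sub_zero, zero_smul, add_zero, Prod.smul_snd, smul_eq_mul]
  rw [e1]
  constructor
  · exact mul_nonneg hg0 (by linarith)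
  · nlinarith

theorem Sld_shift (k κ : ℤ) (s₁ : ℝ × ℝ) {y : ℝ} (h1 : g₁ y = 1) :
    pst k s₁ g₁ g₃ D y + ((κ : ℝ), 0) = pst (k + κ) (s₁ + ((κ : ℝ), 0)) g₁ g₃ D y := by
  refine Prod.ext ?_ ?_
  · simp only [pst, h1, Prod.fst_add, Prod.smul_fst, smul_eq_mul]
    push_cast
    ring
  · simp only [pst, h1, Prod.snd_add, Prod.smul_snd, smul_eq_mul]
    ring

theorem sld (hΓ : CSW.WIn Gam.{u}) (hv : VGood v) (hb : VB v p q) (hst : Steps ρ₁ ρ₂ g₁ g₃)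
    (hD : PCrv ρ₁ ρ₂ d e D) (hp : PData k d e (pl v p q (fin n₁))) (κ : ℤ) :
    GEq.{u} v (up v p q n₁ (pst k (pl v p q (fin n₁)) g₁ g₃ D))
      (up v p q (n₁ + (κ, 0, 0)) (pst (k + κ) (pl v p q (fin (n₁ + (κ, 0, 0)))) g₁ g₃ D)) := by
  have hu := pst_spath hst hD hp
  have hp' : PData (k + κ) d e (pl v p q (fin (n₁ + (κ, 0, 0)))) := by
    rw [pl_fin_add]
    exact pdata_add hp κ
  have hu' := pst_spath hst hD hp'
  have hsx : SPath (0, 0) (pl v p q (fin (n₁ + (κ, 0, 0)))) (sx κ (pst k (pl v p q (fin n₁)) g₁ g₃ D)) := by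
    rw [pl_fin_add]
    exact sx_spath hu κ
  have hA := hom_gcar hv hb hu (hf_spath hu) (ph_half hu)
  have hB := slide hΓ hv hb hu κ
  have hD' := hom_gcar hv hb hu' (hf_spath hu') (ph_half hu')
  refine hA.trans (hB.trans (GEq.trans (hom_gcar hv hb hsx (hf_spath hu') ?_) hD'.symm))
  obtain ⟨ε, hε, hc⟩ := SPath.cpath hsx
  obtain ⟨ε', hε', hc'⟩ := SPath.cpath (hf_spath hu')
  refine ph_strip' (lt_min hε hε') (hc.mono (min_le_left _ _)) (hc'.mono (min_le_right _ _))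
    (ρ₀ := (1 + ρ₁) / 2) ?_ ?_ ?_
  · intro ρ hρ
    have hlo := hst.lo
    have h1 : ¬ ρ < 1 / 2 := by linarith
    rw [sx, if_neg h1, Sld_shift k κ _ (hst.one _ (by linarith)), hf, pl_fin_add]
  · intro ρ hρ
    by_cases h1 : ρ < 1 / 2
    · exact sx_lo κ h1
    · rw [sx, if_neg h1]
      have h2 := Sld_lo hst hD k (pl v p q (fin n₁)) (y := 2 * ρ - 1) (by linarith)
      simpa using h2
  · intro ρ hρ
    exact Sld_lo hst hD (k + κ) (pl v p q (fin (n₁ + (κ, 0, 0)))) (y := 2 * ρ - 1) (by linarith)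

end Pool.Agent.STR
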